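import Pool.Agent.Lib.MP_afdd4d_co.K8.JF

/-!
# The near differences of the coset number 1
-/

namespace Pool.Agent.Lib.MP_afdd4d_co.K8.RN.E01

open Jv

/-- The representative. -/
def g : Ent := ⟨16, 0, 0, 0, 1, 1, 1, 1, 0, 0, 16, 273, 273, 273, 273, 16, 16⟩

/-- The representative as a difference. -/
def z : Ent := ⟨16, 0, 0, 0, 0, 0, 0, 0, 0, 0, 16, 0, 0, 0, 0, 16, 16⟩

theorem hg : (g.mg && (z.z0 && Nat.beq g.c z.c)) = true := by decide +kernel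

/-- Differences, part 0. -/
def L0 : List Ent := [
  ⟨16, 0, 0, 0, 0, 0, 0, 0, 0, 0, 16, 0, 0, 0, 0, 16, 16⟩,
  ⟨262401, 1, 0, 1, 0, 0, 0, 1, 1, 1, 257, 0, 0, 0, 273, 257, 257⟩,
  ⟨32819, 1043, 0, 0, 0, 0, 19, 19, 19, 19, 16, 0, 0, 35, 35, 51, 51⟩,
  ⟨295202, 1042, 0, 1, 0, 0, 19, 18, 18, 18, 257, 0, 0, 35, 306, 290, 290⟩,
  ⟨33555056, 176, 1, 0, 0, 134, 134, 134, 0, 176, 16, 0, 518, 518, 518, 16, 624⟩,
  ⟨2516582416, 0, 15, 0, 896, 896, 896, 896, 0, 0, 16, 5632, 5632, 5632, 5632, 16, 16⟩]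

theorem h0 : (L0.all fun e => e.mt && evC (g.c ^^^ e.c)) = true := by decide +kernel

end Pool.Agent.Lib.MP_afdd4d_co.K8.RN.E01
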