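import Pool.Agent.Lib.MP_afdd4d_co.K8.JF

/-!
# The near differences of the coset number 2
-/

namespace Pool.Agent.Lib.MP_afdd4d_co.K8.RN.E02

open Jv

/-- The representative. -/
def g : Ent := ⟨272, 0, 0, 0, 3, 3, 3, 1, 1, 0, 272, 2307, 2307, 2307, 257, 257, 272⟩

/-- The representative as a difference. -/
def z : Ent := ⟨272, 0, 0, 0, 0, 0, 0, 0, 0, 0, 272, 0, 0, 0, 16, 16, 272⟩

theorem hg : (g.mg && (z.z0 && Nat.beq g.c z.c)) = true := by decide +kernel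

/-- Differences, part 0. -/
def L0 : List Ent := [
  ⟨272, 0, 0, 0, 0, 0, 0, 0, 0, 0, 272, 0, 0, 0, 16, 16, 272⟩,
  ⟨294946, 1042, 0, 1, 0, 0, 19, 18, 18, 18, 1, 0, 0, 35, 290, 290, 34⟩,
  ⟨136314914, 18, 0, 18, 0, 0, 3, 2, 2, 18, 34, 0, 0, 2307, 2050, 2050, 34⟩,
  ⟨33075, 1043, 0, 0, 0, 0, 19, 19, 19, 19, 272, 0, 0, 35, 51, 51, 307⟩,
  ⟨525078, 8326, 0, 0, 0, 37, 37, 0, 134, 134, 272, 0, 69, 69, 16, 534, 790⟩,
  ⟨819748, 9364, 0, 1, 0, 37, 54, 18, 148, 148, 1, 0, 69, 102, 290, 804, 548⟩,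
  ⟨2132257, 1041, 0, 2, 0, 0, 18, 19, 17, 17, 2306, 0, 0, 306, 51, 2081, 2337⟩,
  ⟨34177296, 11264, 1, 0, 0, 176, 176, 176, 176, 0, 272, 0, 608, 608, 624, 624, 272⟩]

theorem h0 : (L0.all fun e => e.mt && evC (g.c ^^^ e.c)) = true := by decide +kernel

/-- Differences, part 1. -/
def L1 : List Ent := [
  ⟨34373700, 9252, 1, 1, 0, 163, 176, 148, 148, 36, 1, 0, 579, 608, 804, 804, 68⟩,
  ⟨34439169, 11265, 1, 1, 0, 176, 176, 177, 177, 1, 1, 0, 608, 608, 865, 865, 1⟩,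
  ⟨136413252, 3108, 0, 18, 0, 19, 16, 52, 52, 36, 34, 0, 35, 2336, 2148, 2148, 68⟩,
  ⟨136839716, 8340, 0, 18, 0, 37, 38, 2, 132, 148, 34, 0, 69, 2374, 2050, 2564, 548⟩,
  ⟨170393668, 8228, 1, 18, 0, 163, 160, 132, 132, 36, 34, 0, 579, 2880, 2564, 2564, 68⟩,
  ⟨2147489552, 896, 8, 0, 524, 524, 524, 0, 0, 896, 272, 4108, 4108, 4108, 16, 16, 5904⟩,
  ⟨2147751425, 897, 8, 1, 524, 524, 524, 1, 1, 897, 1, 4108, 4108, 4108, 257, 257, 5633⟩]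

theorem h1 : (L1.all fun e => e.mt && evC (g.c ^^^ e.c)) = true := by decide +kernel

end Pool.Agent.Lib.MP_afdd4d_co.K8.RN.E02
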