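import Pool.Agent.Lib.MP_afdd4d_co.K8.JF

/-!
# The near differences of the coset number 3
-/

namespace Pool.Agent.Lib.MP_afdd4d_co.K8.RN.E03

open Jv

/-- The representative. -/
def g : Ent := ⟨264192, 0, 0, 0, 20, 20, 16, 2, 2, 1, 2049, 10548, 10548, 2352, 2322, 2322, 2321⟩

/-- The representative as a difference. -/
def z : Ent := ⟨264192, 0, 0, 0, 0, 0, 0, 0, 0, 0, 2049, 0, 0, 16, 256, 256, 2048⟩

theorem hg : (g.mg && (z.z0 && Nat.beq g.c z.c)) = true := by decide +kernel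

/-- Differences, part 0. -/
def L0 : List Ent := [
  ⟨264192, 0, 0, 0, 0, 0, 0, 0, 0, 0, 2049, 0, 0, 16, 256, 256, 2048⟩,
  ⟨2321, 1, 0, 1, 0, 0, 0, 1, 1, 1, 2320, 0, 0, 16, 17, 17, 2321⟩,
  ⟨2097411, 3, 0, 3, 0, 0, 1, 1, 3, 3, 258, 0, 0, 257, 17, 2051, 259⟩,
  ⟨545327104, 2048, 0, 37, 0, 16, 0, 32, 32, 0, 2116, 0, 2336, 16, 8256, 8256, 2048⟩,
  ⟨35122, 1042, 0, 1, 0, 0, 19, 18, 18, 18, 2320, 0, 0, 51, 50, 50, 2354⟩,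
  ⟨67924, 2084, 0, 1, 0, 19, 0, 36, 36, 36, 2320, 0, 35, 16, 84, 84, 2388⟩,
  ⟨296995, 1043, 0, 0, 0, 0, 19, 19, 19, 19, 2049, 0, 0, 51, 291, 291, 2083⟩,
  ⟨329797, 2085, 0, 0, 0, 19, 0, 37, 37, 37, 2049, 0, 35, 16, 325, 325, 2117⟩,
  ⟨2163014, 2086, 0, 3, 0, 19, 1, 36, 38, 38, 258, 0, 35, 257, 84, 2118, 326⟩]

theorem h0 : (L0.all fun e => e.mt && evC (g.c ^^^ e.c)) = true := by decide +kernel

/-- Differences, part 1. -/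
def L1 : List Ent := [
  ⟨2687808, 10400, 0, 3, 0, 54, 36, 36, 160, 160, 258, 0, 102, 324, 84, 2624, 832⟩,
  ⟨4462604, 33292, 0, 0, 73, 73, 0, 0, 524, 524, 2049, 137, 137, 16, 256, 4364, 6156⟩,
  ⟨8399109, 5, 0, 5, 0, 1, 0, 1, 5, 5, 10500, 0, 273, 16, 17, 8197, 10501⟩,
  ⟨8464704, 2080, 0, 5, 0, 18, 0, 36, 32, 32, 10500, 0, 306, 16, 84, 8256, 10560⟩,
  ⟨8661012, 4, 0, 4, 0, 1, 0, 0, 4, 4, 10261, 0, 273, 16, 256, 8468, 10260⟩,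
  ⟨142614565, 21, 0, 21, 0, 1, 2, 3, 5, 21, 8228, 0, 273, 2050, 2051, 8197, 8229⟩,
  ⟨142680160, 2096, 0, 21, 0, 18, 2, 38, 32, 48, 8228, 0, 306, 2050, 2118, 8256, 8288⟩,
  ⟨176235008, 2176, 1, 21, 0, 148, 132, 160, 32, 128, 8228, 0, 820, 2564, 2624, 8256, 8704⟩]

theorem h1 : (L1.all fun e => e.mt && evC (g.c ^^^ e.c)) = true := by decide +kernel

/-- Differences, part 2. -/
def L2 : List Ent := [
  ⟨273090560, 38912, 4, 0, 336, 336, 0, 608, 608, 0, 2049, 1184, 1184, 16, 4544, 4544, 2048⟩,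
  ⟨545261637, 37, 0, 37, 0, 3, 0, 5, 5, 37, 2116, 0, 2307, 16, 8197, 8197, 2117⟩,
  ⟨547422226, 2050, 0, 39, 0, 16, 1, 32, 34, 2, 86, 0, 2336, 257, 8256, 10322, 18⟩,
  ⟨818022400, 36864, 4, 37, 336, 320, 0, 576, 576, 0, 2116, 1184, 3456, 16, 12416, 12416, 2048⟩,
  ⟨4840301056, 2176, 0, 165, 0, 20, 4, 32, 32, 128, 8772, 0, 10548, 8196, 8256, 8256, 8704⟩,
  ⟨5385626112, 4224, 0, 201, 16, 4, 4, 64, 64, 128, 8840, 2336, 8212, 8196, 16512, 16512, 8704⟩,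
  ⟨17180162048, 512, 0, 512, 8, 8, 0, 0, 0, 512, 30721, 16408, 16408, 16, 256, 256, 30720⟩,
  ⟨17737779200, 34816, 0, 553, 64, 80, 0, 32, 544, 0, 6216, 16768, 18592, 16, 8256, 20544, 2048⟩]

theorem h2 : (L2.all fun e => e.mt && evC (g.c ^^^ e.c)) = true := by decide +kernel

end Pool.Agent.Lib.MP_afdd4d_co.K8.RN.E03
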