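import Pool.Agent.Lib.MP_afdd4d_co.K8.JF

/-!
# The near differences of the coset number 4
-/

namespace Pool.Agent.Lib.MP_afdd4d_co.K8.RN.E04

open Jv

/-- The representative. -/
def g : Ent := ⟨2320, 0, 0, 0, 7, 7, 3, 3, 3, 0, 2320, 10519, 10519, 2323, 2323, 2323, 2320⟩

/-- The representative as a difference. -/
def z : Ent := ⟨2320, 0, 0, 0, 0, 0, 0, 0, 0, 0, 2320, 0, 0, 16, 16, 16, 2320⟩

theorem hg : (g.mg && (z.z0 && Nat.beq g.c z.c)) = true := by decide +kernel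

/-- Differences, part 0. -/
def L0 : List Ent := [
  ⟨2320, 0, 0, 0, 0, 0, 0, 0, 0, 0, 2320, 0, 0, 16, 16, 16, 2320⟩,
  ⟨264193, 1, 0, 1, 0, 0, 0, 1, 1, 1, 2049, 0, 0, 16, 257, 257, 2049⟩,
  ⟨296994, 1042, 0, 1, 0, 0, 19, 18, 18, 18, 2049, 0, 0, 51, 290, 290, 2082⟩,
  ⟨329796, 2084, 0, 1, 0, 19, 0, 36, 36, 36, 2049, 0, 35, 16, 324, 324, 2116⟩,
  ⟨2359315, 3, 0, 3, 0, 0, 1, 1, 3, 3, 19, 0, 0, 257, 257, 2323, 19⟩,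
  ⟨8399108, 4, 0, 4, 0, 1, 0, 0, 4, 4, 10500, 0, 273, 16, 16, 8196, 10500⟩,
  ⟨142614564, 20, 0, 20, 0, 1, 2, 2, 4, 20, 8228, 0, 273, 2050, 2050, 8196, 8228⟩,
  ⟨545261636, 36, 0, 36, 0, 3, 0, 4, 4, 36, 2116, 0, 2307, 16, 8196, 8196, 2116⟩]

theorem h0 : (L0.all fun e => e.mt && evC (g.c ^^^ e.c)) = true := by decide +kernel

end Pool.Agent.Lib.MP_afdd4d_co.K8.RN.E04
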