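import Pool.Agent.Lib.MP_afdd4d_co.K8.JF

/-!
# The near differences of the coset number 5
-/

namespace Pool.Agent.Lib.MP_afdd4d_co.K8.RN.E05

open Jv

/-- The representative. -/
def g : Ent := ⟨264208, 0, 0, 0, 21, 21, 17, 3, 2, 1, 2065, 10277, 10277, 2081, 2051, 2306, 2305⟩

/-- The representative as a difference. -/
def z : Ent := ⟨264208, 0, 0, 0, 0, 0, 0, 0, 0, 0, 2065, 0, 0, 16, 256, 272, 2064⟩

theorem hg : (g.mg && (z.z0 && Nat.beq g.c z.c)) = true := by decide +kernel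

/-- Differences, part 0. -/
def L0 : List Ent := [
  ⟨2305, 1, 0, 1, 0, 0, 0, 1, 1, 1, 2304, 0, 0, 16, 17, 1, 2305⟩,
  ⟨35106, 1042, 0, 1, 0, 0, 19, 18, 18, 18, 2304, 0, 0, 51, 50, 34, 2338⟩,
  ⟨67908, 2084, 0, 1, 0, 19, 0, 36, 36, 36, 2304, 0, 35, 16, 84, 68, 2372⟩,
  ⟨2130224, 1040, 0, 3, 0, 0, 18, 18, 16, 16, 274, 0, 0, 290, 50, 2096, 304⟩,
  ⟨8660996, 4, 0, 4, 0, 1, 0, 0, 4, 4, 10245, 0, 273, 16, 256, 8452, 10244⟩,
  ⟨167838212, 2180, 1, 17, 0, 149, 132, 160, 36, 132, 32, 0, 549, 2564, 2624, 68, 516⟩,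
  ⟨4831904260, 2180, 0, 161, 0, 21, 4, 32, 36, 132, 576, 0, 10277, 8196, 8256, 68, 516⟩]

theorem h0 : (L0.all fun e => e.mt && evC (g.c ^^^ e.c)) = true := by decide +kernel

end Pool.Agent.Lib.MP_afdd4d_co.K8.RN.E05
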