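import Pool.Agent.Lib.MP_afdd4d_co.K8.JF

/-!
# The near differences of the coset number 6
-/

namespace Pool.Agent.Lib.MP_afdd4d_co.K8.RN.E06

open Jv

/-- The representative. -/
def g : Ent := ⟨272384, 0, 0, 0, 28, 20, 20, 6, 6, 1, 10241, 26924, 10532, 10532, 10502, 10502, 10513⟩

/-- The representative as a difference. -/
def z : Ent := ⟨272384, 0, 0, 0, 0, 0, 0, 0, 0, 0, 10241, 0, 16, 16, 256, 256, 10240⟩

theorem hg : (g.mg && (z.z0 && Nat.beq g.c z.c)) = true := by decide +kernel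

/-- Differences, part 0. -/
def L0 : List Ent := [
  ⟨272384, 0, 0, 0, 0, 0, 0, 0, 0, 0, 10241, 0, 16, 16, 256, 256, 10240⟩,
  ⟨4295229952, 128, 0, 128, 0, 4, 4, 0, 0, 128, 513, 0, 8196, 8196, 256, 256, 512⟩,
  ⟨10513, 1, 0, 1, 0, 0, 0, 1, 1, 1, 10512, 0, 16, 16, 17, 17, 10513⟩,
  ⟨2105603, 3, 0, 3, 0, 0, 1, 1, 3, 3, 8450, 0, 16, 257, 17, 2051, 8451⟩,
  ⟨2138400, 1040, 0, 3, 0, 0, 18, 18, 16, 16, 8450, 0, 16, 290, 50, 2080, 8480⟩,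
  ⟨2367506, 2, 0, 2, 0, 0, 1, 0, 2, 2, 8211, 0, 16, 257, 256, 2322, 8210⟩,
  ⟨10747910, 6, 0, 6, 0, 1, 1, 0, 6, 6, 7, 0, 257, 257, 256, 10502, 6⟩,
  ⟨11272704, 8320, 0, 6, 0, 36, 36, 0, 128, 128, 7, 0, 324, 324, 256, 11008, 512⟩,
  ⟨136357888, 1024, 0, 19, 0, 0, 16, 16, 16, 0, 10274, 0, 16, 2352, 2080, 2080, 10240⟩,
  ⟨142606373, 21, 0, 21, 0, 1, 2, 3, 5, 21, 36, 0, 257, 2050, 2051, 8197, 37⟩,
  ⟨142639110, 1030, 0, 21, 0, 1, 17, 16, 22, 6, 36, 0, 257, 2081, 2080, 8230, 6⟩]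

theorem h0 : (L0.all fun e => e.mt && evC (g.c ^^^ e.c)) = true := by decide +kernel

/-- Differences, part 1. -/
def L1 : List Ent := [
  ⟨143163904, 9344, 0, 21, 0, 36, 52, 16, 144, 128, 36, 0, 324, 2148, 2080, 8736, 512⟩,
  ⟨1090660352, 4096, 0, 73, 16, 0, 0, 64, 64, 0, 10376, 2336, 16, 16, 16512, 16512, 10240⟩,
  ⟨4294968081, 129, 0, 129, 0, 4, 4, 1, 1, 129, 784, 0, 8196, 8196, 17, 17, 785⟩,
  ⟨4295753734, 8198, 0, 128, 0, 33, 33, 0, 134, 6, 513, 0, 8257, 8257, 256, 774, 6⟩,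
  ⟨4431315456, 1152, 0, 147, 0, 4, 20, 16, 16, 128, 546, 0, 8196, 10532, 2080, 2080, 512⟩,
  ⟨5385617920, 4224, 0, 201, 16, 4, 4, 64, 64, 128, 648, 2336, 8196, 8196, 16512, 16512, 512⟩,
  ⟨6442718208, 768, 8, 128, 524, 520, 520, 0, 0, 768, 513, 4108, 12296, 12296, 256, 256, 5120⟩,
  ⟨8590222336, 256, 0, 256, 4, 0, 8, 0, 0, 256, 25601, 8212, 16, 16392, 256, 256, 25600⟩,
  ⟨25770071040, 768, 0, 768, 12, 8, 8, 0, 0, 768, 5121, 24588, 16392, 16392, 256, 256, 5120⟩,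
  ⟨27917550080, 128, 8, 768, 512, 516, 516, 0, 0, 128, 5121, 28672, 20484, 20484, 256, 256, 512⟩]

theorem h1 : (L1.all fun e => e.mt && evC (g.c ^^^ e.c)) = true := by decide +kernel

end Pool.Agent.Lib.MP_afdd4d_co.K8.RN.E06
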