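import Pool.Agent.Lib.MP_afdd4d_co.K8.JF

/-!
# The near differences of the coset number 7
-/

namespace Pool.Agent.Lib.MP_afdd4d_co.K8.RN.E07

open Jv

/-- The representative. -/
def g : Ent := ⟨142622720, 0, 0, 0, 192, 136, 40, 40, 24, 20, 16420, 27536, 27416, 26968, 26968, 26936, 26932⟩

/-- The representative as a difference. -/
def z : Ent := ⟨142622720, 0, 0, 0, 0, 0, 0, 0, 0, 0, 16420, 16, 256, 2048, 2048, 8192, 16384⟩

theorem hg : (g.mg && (z.z0 && Nat.beq g.c z.c)) = true := by decide +kernel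

/-- Differences, part 0. -/
def L0 : List Ent := [
  ⟨142622720, 0, 0, 0, 0, 0, 0, 0, 0, 0, 16420, 16, 256, 2048, 2048, 8192, 16384⟩,
  ⟨8407328, 16, 0, 16, 0, 0, 2, 2, 0, 16, 18692, 16, 256, 18, 18, 8192, 18720⟩,
  ⟨151003148, 12, 0, 12, 1, 1, 0, 0, 12, 12, 8232, 257, 17, 2048, 2048, 16396, 8204⟩]

theorem h0 : (L0.all fun e => e.mt && evC (g.c ^^^ e.c)) = true := by decide +kernel

end Pool.Agent.Lib.MP_afdd4d_co.K8.RN.E07
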