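import Pool.Agent.Lib.MP_afdd4d_co.K8.JF

/-!
# The near differences of the coset number 8
-/

namespace Pool.Agent.Lib.MP_afdd4d_co.K8.RN.E08

open Jv

/-- The representative. -/
def g : Ent := ⟨10512, 0, 0, 0, 15, 7, 7, 7, 7, 0, 10512, 26895, 10503, 10503, 10503, 10503, 10512⟩

/-- The representative as a difference. -/
def z : Ent := ⟨10512, 0, 0, 0, 0, 0, 0, 0, 0, 0, 10512, 0, 16, 16, 16, 16, 10512⟩

theorem hg : (g.mg && (z.z0 && Nat.beq g.c z.c)) = true := by decide +kernel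

/-- Differences, part 0. -/
def L0 : List Ent := [
  ⟨10512, 0, 0, 0, 0, 0, 0, 0, 0, 0, 10512, 0, 16, 16, 16, 16, 10512⟩,
  ⟨272385, 1, 0, 1, 0, 0, 0, 1, 1, 1, 10241, 0, 16, 16, 257, 257, 10241⟩,
  ⟨142606372, 20, 0, 20, 0, 1, 2, 2, 4, 20, 36, 0, 257, 2050, 2050, 8196, 36⟩,
  ⟨305186, 1042, 0, 1, 0, 0, 19, 18, 18, 18, 10241, 0, 16, 51, 290, 290, 10274⟩,
  ⟨403592, 4168, 0, 1, 19, 0, 0, 72, 72, 72, 10241, 35, 16, 16, 392, 392, 10376⟩,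
  ⟨2367507, 3, 0, 3, 0, 0, 1, 1, 3, 3, 8211, 0, 16, 257, 257, 2323, 8211⟩,
  ⟨10747911, 7, 0, 7, 0, 1, 1, 1, 7, 7, 7, 0, 257, 257, 257, 10503, 7⟩]

theorem h0 : (L0.all fun e => e.mt && evC (g.c ^^^ e.c)) = true := by decide +kernel

/-- Differences, part 1. -/
def L1 : List Ent := [
  ⟨10780708, 1044, 0, 7, 0, 1, 18, 18, 20, 20, 7, 0, 257, 290, 290, 10532, 36⟩,
  ⟨16804104, 8, 0, 8, 1, 0, 0, 0, 8, 8, 26888, 273, 16, 16, 16, 16392, 26888⟩,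
  ⟨142704706, 3106, 0, 20, 0, 18, 17, 52, 50, 34, 36, 0, 290, 2081, 2148, 8290, 66⟩,
  ⟨146804776, 33304, 0, 20, 73, 72, 2, 2, 520, 536, 36, 137, 392, 2050, 2050, 12296, 4136⟩,
  ⟨151019560, 24, 0, 24, 1, 0, 2, 2, 8, 24, 24616, 273, 16, 2050, 2050, 16392, 24616⟩,
  ⟨1090529416, 72, 0, 72, 3, 0, 0, 8, 8, 72, 10376, 2307, 16, 16, 16392, 16392, 10376⟩,
  ⟨5385486984, 200, 0, 200, 3, 4, 4, 8, 8, 200, 648, 2307, 8196, 8196, 16392, 16392, 648⟩]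

theorem h1 : (L1.all fun e => e.mt && evC (g.c ^^^ e.c)) = true := by decide +kernel

end Pool.Agent.Lib.MP_afdd4d_co.K8.RN.E08
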