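import Pool.Agent.Lib.MP_afdd4d_co.K8.JF

/-!
# The near differences of the coset number 10
-/

namespace Pool.Agent.Lib.MP_afdd4d_co.K8.RN.E10

open Jv

/-- The representative. -/
def g : Ent := ⟨288768, 0, 0, 0, 28, 28, 28, 14, 14, 1, 26625, 26940, 26940, 26940, 26910, 26910, 26897⟩

/-- The representative as a difference. -/
def z : Ent := ⟨288768, 0, 0, 0, 0, 0, 0, 0, 0, 0, 26625, 16, 16, 16, 256, 256, 26624⟩

theorem hg : (g.mg && (z.z0 && Nat.beq g.c z.c)) = true := by decide +kernel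

/-- Differences, part 0. -/
def L0 : List Ent := [
  ⟨288768, 0, 0, 0, 0, 0, 0, 0, 0, 0, 26625, 16, 16, 16, 256, 256, 26624⟩,
  ⟨4295246336, 128, 0, 128, 0, 4, 4, 0, 0, 128, 16897, 16, 8196, 8196, 256, 256, 16896⟩,
  ⟨26897, 1, 0, 1, 0, 0, 0, 1, 1, 1, 26896, 16, 16, 16, 17, 17, 26897⟩,
  ⟨2121987, 3, 0, 3, 0, 0, 1, 1, 3, 3, 24834, 16, 16, 257, 17, 2051, 24835⟩,
  ⟨2154784, 1040, 0, 3, 0, 0, 18, 18, 16, 16, 24834, 16, 16, 290, 50, 2080, 24864⟩,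
  ⟨2383890, 2, 0, 2, 0, 0, 1, 0, 2, 2, 24595, 16, 16, 257, 256, 2322, 24594⟩,
  ⟨10764294, 6, 0, 6, 0, 1, 1, 0, 6, 6, 16391, 16, 257, 257, 256, 10502, 16390⟩,
  ⟨11289088, 8320, 0, 6, 0, 36, 36, 0, 128, 128, 16391, 16, 324, 324, 256, 11008, 16896⟩,
  ⟨136374272, 1024, 0, 19, 0, 0, 16, 16, 16, 0, 26658, 16, 16, 2352, 2080, 2080, 26624⟩,
  ⟨142622757, 21, 0, 21, 0, 1, 2, 3, 5, 21, 16420, 16, 257, 2050, 2051, 8197, 16421⟩,
  ⟨142655494, 1030, 0, 21, 0, 1, 17, 16, 22, 6, 16420, 16, 257, 2081, 2080, 8230, 16390⟩]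

theorem h0 : (L0.all fun e => e.mt && evC (g.c ^^^ e.c)) = true := by decide +kernel

/-- Differences, part 1. -/
def L1 : List Ent := [
  ⟨143180288, 9344, 0, 21, 0, 36, 52, 16, 144, 128, 16420, 16, 324, 2148, 2080, 8736, 16896⟩,
  ⟨4294984465, 129, 0, 129, 0, 4, 4, 1, 1, 129, 17168, 16, 8196, 8196, 17, 17, 17169⟩,
  ⟨4295770118, 8198, 0, 128, 0, 33, 33, 0, 134, 6, 16897, 16, 8257, 8257, 256, 774, 16390⟩,
  ⟨4311745289, 137, 0, 137, 1, 4, 4, 1, 9, 137, 776, 257, 8196, 8196, 17, 16393, 777⟩,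
  ⟨4311876480, 4288, 0, 137, 18, 4, 4, 72, 64, 192, 776, 290, 8196, 8196, 152, 16512, 896⟩,
  ⟨4312007192, 136, 0, 136, 1, 4, 4, 0, 8, 136, 537, 257, 8196, 8196, 256, 16664, 536⟩,
  ⟨4431331840, 1152, 0, 147, 0, 4, 20, 16, 16, 128, 16930, 16, 8196, 10532, 2080, 2080, 16896⟩,
  ⟨5385634304, 4224, 0, 201, 16, 4, 4, 64, 64, 128, 17032, 2352, 8196, 8196, 16512, 16512, 16896⟩,
  ⟨6442734592, 768, 8, 128, 524, 520, 520, 0, 0, 768, 16897, 4124, 12296, 12296, 256, 256, 21504⟩,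
  ⟨12885167616, 384, 0, 384, 4, 4, 12, 0, 0, 384, 3585, 8196, 8196, 24604, 256, 256, 3584⟩,
  ⟨15032653824, 512, 8, 384, 520, 520, 512, 0, 0, 512, 3585, 12296, 12296, 28688, 256, 256, 6144⟩]

theorem h1 : (L1.all fun e => e.mt && evC (g.c ^^^ e.c)) = true := by decide +kernel

end Pool.Agent.Lib.MP_afdd4d_co.K8.RN.E10
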