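import Pool.Agent.Lib.MP_afdd4d_co.K8.JF

/-!
# The near differences of the coset number 11
-/

namespace Pool.Agent.Lib.MP_afdd4d_co.K8.RN.E11

open Jv

/-- The representative. -/
def g : Ent := ⟨2367744, 0, 0, 0, 58, 50, 22, 20, 5, 3, 8451, 24682, 8290, 8230, 10276, 10245, 10243⟩

/-- The representative as a difference. -/
def z : Ent := ⟨2367744, 0, 0, 0, 0, 0, 0, 0, 0, 0, 8451, 0, 16, 256, 272, 2304, 8448⟩

theorem hg : (g.mg && (z.z0 && Nat.beq g.c z.c)) = true := by decide +kernel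

/-- Differences, part 0. -/
def L0 : List Ent := [
  ⟨10243, 3, 0, 3, 0, 0, 1, 1, 3, 3, 10240, 0, 16, 17, 1, 3, 10243⟩,
  ⟨43040, 1040, 0, 3, 0, 0, 18, 18, 16, 16, 10240, 0, 16, 50, 34, 32, 10272⟩,
  ⟨2105361, 1, 0, 1, 0, 0, 0, 1, 1, 1, 8210, 0, 16, 256, 1, 2065, 8209⟩,
  ⟨75846, 2086, 0, 3, 0, 19, 1, 36, 38, 38, 10240, 0, 51, 17, 68, 70, 10310⟩,
  ⟨141450, 4170, 0, 3, 19, 0, 1, 72, 74, 74, 10240, 35, 16, 17, 136, 138, 10378⟩,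
  ⟨272658, 2, 0, 2, 0, 0, 1, 0, 2, 2, 10513, 0, 16, 17, 272, 274, 10514⟩,
  ⟨535045, 8325, 0, 3, 0, 37, 36, 1, 133, 133, 10240, 0, 85, 84, 1, 517, 10757⟩,
  ⟨1059849, 16649, 0, 3, 37, 0, 72, 1, 265, 265, 10240, 69, 16, 152, 1, 1033, 11273⟩,
  ⟨1191040, 20800, 0, 3, 54, 0, 72, 72, 320, 320, 10240, 102, 16, 152, 136, 1152, 11392⟩,
  ⟨2138162, 1042, 0, 1, 0, 0, 19, 18, 18, 18, 8210, 0, 16, 291, 34, 2098, 8242⟩,
  ⟨2236568, 4168, 0, 1, 19, 0, 0, 72, 72, 72, 8210, 35, 16, 256, 136, 2200, 8344⟩]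

theorem h0 : (L0.all fun e => e.mt && evC (g.c ^^^ e.c)) = true := by decide +kernel

/-- Differences, part 1. -/
def L1 : List Ent := [
  ⟨8423476, 1044, 0, 7, 0, 1, 18, 18, 20, 20, 2068, 0, 257, 50, 34, 8244, 2100⟩,
  ⟨8653062, 6, 0, 6, 0, 1, 1, 0, 6, 6, 2309, 0, 257, 17, 272, 8454, 2310⟩,
  ⟨8915473, 8321, 0, 7, 0, 36, 36, 1, 129, 129, 2068, 0, 324, 84, 1, 8721, 2577⟩,
  ⟨9177856, 8320, 0, 6, 0, 36, 36, 0, 128, 128, 2309, 0, 324, 84, 272, 8960, 2816⟩,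
  ⟨18898953, 9, 0, 9, 1, 0, 0, 1, 9, 9, 24586, 273, 16, 256, 1, 18441, 24585⟩,
  ⟨19030144, 4160, 0, 9, 18, 0, 0, 72, 64, 64, 24586, 306, 16, 256, 136, 18560, 24704⟩,
  ⟨67153024, 1344, 2, 3, 134, 0, 280, 280, 16, 320, 10240, 518, 16, 1080, 1064, 32, 11392⟩,
  ⟨68298784, 20496, 2, 3, 176, 0, 322, 322, 320, 16, 10240, 608, 16, 1170, 1154, 1152, 10272⟩,
  ⟨6443503625, 16905, 8, 131, 553, 520, 576, 1, 265, 521, 512, 4169, 12296, 12416, 1, 1033, 4105⟩,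
  ⟨6443634816, 21056, 8, 131, 570, 520, 576, 72, 320, 576, 512, 4202, 12296, 12416, 136, 1152, 4224⟩,
  ⟨25770987648, 21056, 0, 771, 58, 8, 64, 72, 320, 576, 5120, 24682, 16392, 16512, 136, 1152, 4224⟩]

theorem h1 : (L1.all fun e => e.mt && evC (g.c ^^^ e.c)) = true := by decide +kernel

end Pool.Agent.Lib.MP_afdd4d_co.K8.RN.E11
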