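import Pool.Agent.Lib.MP_afdd4d_co.K8.JF

/-!
# The near differences of the coset number 12
-/

namespace Pool.Agent.Lib.MP_afdd4d_co.K8.RN.E12

open Jv

/-- The representative. -/
def g : Ent := ⟨2383872, 0, 0, 0, 56, 56, 28, 28, 12, 3, 24579, 26728, 26728, 26668, 26668, 26892, 26883⟩

/-- The representative as a difference. -/
def z : Ent := ⟨2383872, 0, 0, 0, 0, 0, 0, 0, 0, 0, 24579, 16, 16, 256, 256, 2304, 24576⟩

theorem hg : (g.mg && (z.z0 && Nat.beq g.c z.c)) = true := by decide +kernel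

/-- Differences, part 0. -/
def L0 : List Ent := [
  ⟨2383872, 0, 0, 0, 0, 0, 0, 0, 0, 0, 24579, 16, 16, 256, 256, 2304, 24576⟩,
  ⟨134275072, 1024, 0, 19, 0, 0, 16, 16, 16, 0, 24608, 16, 16, 2080, 2080, 32, 24576⟩,
  ⟨17314123776, 1536, 0, 531, 8, 8, 16, 16, 16, 512, 4128, 16392, 16392, 2080, 2080, 32, 4096⟩,
  ⟨26883, 3, 0, 3, 0, 0, 1, 1, 3, 3, 26880, 16, 16, 17, 17, 3, 26883⟩,
  ⟨59680, 1040, 0, 3, 0, 0, 18, 18, 16, 16, 26880, 16, 16, 50, 50, 32, 26912⟩,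
  ⟨288786, 2, 0, 2, 0, 0, 1, 0, 2, 2, 26641, 16, 16, 17, 256, 274, 26642⟩,
  ⟨8669190, 6, 0, 6, 0, 1, 1, 0, 6, 6, 18437, 16, 257, 17, 256, 8454, 18438⟩,
  ⟨9193984, 8320, 0, 6, 0, 36, 36, 0, 128, 128, 18437, 16, 324, 84, 256, 8960, 18944⟩,
  ⟨134242339, 19, 0, 19, 0, 0, 3, 3, 3, 19, 24608, 16, 16, 2051, 2051, 3, 24611⟩,
  ⟨142655508, 1028, 0, 23, 0, 1, 16, 16, 20, 4, 16436, 16, 257, 2080, 2080, 8244, 16404⟩,
  ⟨159416332, 1036, 0, 31, 1, 1, 16, 16, 28, 12, 44, 257, 257, 2080, 2080, 24620, 12⟩]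

theorem h0 : (L0.all fun e => e.mt && evC (g.c ^^^ e.c)) = true := by decide +kernel

/-- Differences, part 1. -/
def L1 : List Ent := [
  ⟨163614720, 34304, 0, 31, 72, 72, 16, 16, 528, 512, 44, 392, 392, 2080, 2080, 28704, 4096⟩,
  ⟨168386560, 10240, 1, 19, 0, 176, 160, 160, 160, 0, 24608, 16, 624, 2624, 2624, 576, 24576⟩,
  ⟨536889411, 35, 0, 35, 0, 2, 1, 5, 3, 35, 18496, 16, 2050, 17, 8197, 3, 18499⟩,
  ⟨536922208, 1072, 0, 35, 0, 2, 18, 22, 16, 48, 18496, 16, 2050, 50, 8230, 32, 18528⟩,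
  ⟨536954886, 2054, 0, 35, 0, 17, 1, 32, 38, 6, 18496, 16, 2081, 17, 8256, 70, 18438⟩,
  ⟨537479680, 10368, 0, 35, 0, 52, 36, 32, 160, 128, 18496, 16, 2148, 84, 8256, 576, 18944⟩,
  ⟨538984529, 33, 0, 33, 0, 2, 0, 5, 1, 33, 16466, 16, 2050, 256, 8197, 2065, 16465⟩,
  ⟨539246912, 32, 0, 32, 0, 2, 0, 4, 0, 32, 16707, 16, 2050, 256, 8468, 2304, 16704⟩,
  ⟨570477056, 1152, 1, 35, 0, 132, 148, 144, 16, 128, 18496, 16, 2564, 564, 8736, 32, 18944⟩,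
  ⟨671138112, 1056, 0, 51, 0, 2, 16, 20, 16, 32, 16736, 16, 2050, 2080, 10292, 32, 16704⟩,
  ⟨1612972224, 96, 0, 96, 2, 2, 0, 12, 0, 96, 195, 2050, 2050, 256, 24844, 2304, 192⟩]

theorem h1 : (L1.all fun e => e.mt && evC (g.c ^^^ e.c)) = true := by decide +kernel

/-- Differences, part 2. -/
def L2 : List Ent := [
  ⟨1744863424, 1120, 0, 115, 2, 2, 16, 28, 16, 96, 224, 2050, 2050, 2080, 26668, 32, 192⟩,
  ⟨1881411584, 512, 4, 96, 264, 264, 0, 512, 0, 512, 195, 3080, 3080, 256, 28928, 2304, 4096⟩,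
  ⟨2013302784, 1536, 4, 115, 264, 264, 16, 528, 16, 512, 224, 3080, 3080, 2080, 30752, 32, 4096⟩,
  ⟨5368709763, 195, 0, 195, 2, 4, 5, 9, 3, 195, 640, 2050, 8196, 8197, 16393, 3, 643⟩,
  ⟨5368742560, 1232, 0, 195, 2, 4, 22, 26, 16, 208, 640, 2050, 8196, 8230, 16426, 32, 672⟩,
  ⟨5368840714, 4234, 0, 195, 17, 4, 5, 64, 74, 138, 640, 2081, 8196, 8197, 16512, 138, 522⟩,
  ⟨5369299136, 10336, 0, 195, 2, 50, 32, 44, 160, 96, 640, 2050, 8290, 8256, 16460, 576, 192⟩,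
  ⟨5402296512, 1120, 1, 195, 2, 130, 144, 156, 16, 96, 640, 2050, 8706, 8736, 16940, 32, 192⟩,
  ⟨5670735872, 1536, 5, 195, 264, 392, 144, 656, 16, 512, 640, 3080, 9736, 8736, 21024, 32, 4096⟩,
  ⟨17314091043, 531, 0, 531, 8, 8, 3, 3, 3, 531, 4128, 16392, 16392, 2051, 2051, 3, 4131⟩,
  ⟨17348235264, 10752, 1, 531, 8, 184, 160, 160, 160, 512, 4128, 16392, 17000, 2624, 2624, 576, 4096⟩]

theorem h2 : (L2.all fun e => e.mt && evC (g.c ^^^ e.c)) = true := by decide +kernel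

end Pool.Agent.Lib.MP_afdd4d_co.K8.RN.E12
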