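import Pool.Agent.Lib.MP_afdd4d_co.K8.JF

/-!
# The near differences of the coset number 13
-/

namespace Pool.Agent.Lib.MP_afdd4d_co.K8.RN.E13

open Jv

/-- The representative. -/
def g : Ent := ⟨136585216, 0, 0, 0, 184, 176, 20, 20, 20, 19, 8227, 17016, 624, 8244, 8244, 8244, 8227⟩

/-- The representative as a difference. -/
def z : Ent := ⟨136585216, 0, 0, 0, 0, 0, 0, 0, 0, 0, 8227, 0, 16, 2304, 2304, 2304, 8192⟩

theorem hg : (g.mg && (z.z0 && Nat.beq g.c z.c)) = true := by decide +kernel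

/-- Differences, part 0. -/
def L0 : List Ent := [
  ⟨40960, 1024, 0, 19, 0, 0, 16, 16, 16, 0, 8192, 0, 16, 32, 32, 32, 8192⟩,
  ⟨8227, 19, 0, 19, 0, 0, 3, 3, 3, 19, 8192, 0, 16, 3, 3, 3, 8227⟩,
  ⟨68296704, 20480, 2, 19, 176, 0, 320, 320, 320, 0, 8192, 608, 16, 1152, 1152, 1152, 8192⟩,
  ⟨73830, 2102, 0, 19, 0, 19, 3, 38, 38, 54, 8192, 0, 51, 3, 70, 70, 8294⟩,
  ⟨106565, 3109, 0, 19, 0, 19, 16, 53, 53, 37, 8192, 0, 51, 32, 101, 101, 8261⟩,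
  ⟨139434, 4186, 0, 19, 19, 0, 3, 74, 74, 90, 8192, 35, 16, 3, 138, 138, 8362⟩,
  ⟨172169, 5193, 0, 19, 19, 0, 16, 89, 89, 73, 8192, 35, 16, 32, 169, 169, 8329⟩]

theorem h0 : (L0.all fun e => e.mt && evC (g.c ^^^ e.c)) = true := by decide +kernel

/-- Differences, part 1. -/
def L1 : List Ent := [
  ⟨1189024, 20816, 0, 19, 54, 0, 74, 74, 320, 336, 8192, 102, 16, 138, 138, 1152, 9376⟩,
  ⟨8388663, 23, 0, 23, 0, 1, 3, 3, 7, 23, 20, 0, 257, 3, 3, 8215, 55⟩,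
  ⟨8454258, 2098, 0, 23, 0, 18, 3, 38, 34, 50, 20, 0, 290, 3, 70, 8274, 114⟩,
  ⟨9175840, 8336, 0, 22, 0, 36, 38, 2, 128, 144, 261, 0, 324, 70, 274, 8960, 800⟩,
  ⟨76677140, 20484, 2, 23, 176, 1, 320, 320, 324, 4, 20, 608, 257, 1152, 1152, 9364, 20⟩,
  ⟨17248178176, 20992, 2, 531, 184, 8, 320, 320, 320, 512, 20480, 17016, 16392, 1152, 1152, 1152, 20480⟩]

theorem h1 : (L1.all fun e => e.mt && evC (g.c ^^^ e.c)) = true := by decide +kernel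

end Pool.Agent.Lib.MP_afdd4d_co.K8.RN.E13
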