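import Pool.Agent.Lib.MP_afdd4d_co.K8.JF

/-!
# The near differences of the coset number 15
-/

namespace Pool.Agent.Lib.MP_afdd4d_co.K8.RN.E15

open Jv

/-- The representative. -/
def g : Ent := ⟨26896, 0, 0, 0, 15, 15, 15, 15, 15, 0, 26896, 26911, 26911, 26911, 26911, 26911, 26896⟩

/-- The representative as a difference. -/
def z : Ent := ⟨26896, 0, 0, 0, 0, 0, 0, 0, 0, 0, 26896, 16, 16, 16, 16, 16, 26896⟩

theorem hg : (g.mg && (z.z0 && Nat.beq g.c z.c)) = true := by decide +kernel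

/-- Differences, part 0. -/
def L0 : List Ent := [
  ⟨26896, 0, 0, 0, 0, 0, 0, 0, 0, 0, 26896, 16, 16, 16, 16, 16, 26896⟩,
  ⟨288769, 1, 0, 1, 0, 0, 0, 1, 1, 1, 26625, 16, 16, 16, 257, 257, 26625⟩,
  ⟨142622756, 20, 0, 20, 0, 1, 2, 2, 4, 20, 16420, 16, 257, 2050, 2050, 8196, 16420⟩]

theorem h0 : (L0.all fun e => e.mt && evC (g.c ^^^ e.c)) = true := by decide +kernel

end Pool.Agent.Lib.MP_afdd4d_co.K8.RN.E15
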