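import Pool.Agent.Lib.MP_afdd4d_co.K8.JF

/-!
# The near differences of the coset number 16
-/

namespace Pool.Agent.Lib.MP_afdd4d_co.K8.RN.E16

open Jv

/-- The representative. -/
def g : Ent := ⟨288784, 0, 0, 0, 29, 29, 29, 15, 14, 1, 26641, 26669, 26669, 26669, 26639, 26894, 26881⟩

/-- The representative as a difference. -/
def z : Ent := ⟨288784, 0, 0, 0, 0, 0, 0, 0, 0, 0, 26641, 16, 16, 16, 256, 272, 26640⟩

theorem hg : (g.mg && (z.z0 && Nat.beq g.c z.c)) = true := by decide +kernel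

/-- Differences, part 0. -/
def L0 : List Ent := [
  ⟨26881, 1, 0, 1, 0, 0, 0, 1, 1, 1, 26880, 16, 16, 16, 17, 1, 26881⟩,
  ⟨2383874, 2, 0, 2, 0, 0, 1, 0, 2, 2, 24579, 16, 16, 257, 256, 2306, 24578⟩,
  ⟨134275074, 1026, 0, 17, 0, 0, 17, 16, 18, 2, 24608, 16, 16, 2081, 2080, 34, 24578⟩,
  ⟨4294984449, 129, 0, 129, 0, 4, 4, 1, 1, 129, 17152, 16, 8196, 8196, 17, 1, 17153⟩,
  ⟨4312007176, 136, 0, 136, 1, 4, 4, 0, 8, 136, 521, 257, 8196, 8196, 256, 16648, 520⟩,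
  ⟨5368840712, 4232, 0, 193, 17, 4, 4, 64, 72, 136, 640, 2081, 8196, 8196, 16512, 136, 520⟩]

theorem h0 : (L0.all fun e => e.mt && evC (g.c ^^^ e.c)) = true := by decide +kernel

end Pool.Agent.Lib.MP_afdd4d_co.K8.RN.E16
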