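import Pool.Agent.Lib.MP_afdd4d_co.K8.JF

/-!
# The near differences of the coset number 17
-/

namespace Pool.Agent.Lib.MP_afdd4d_co.K8.RN.E17

open Jv

/-- The representative. -/
def g : Ent := ⟨2367760, 0, 0, 0, 59, 51, 23, 21, 5, 3, 8467, 24955, 8563, 8503, 10549, 10261, 10259⟩

/-- The representative as a difference. -/
def z : Ent := ⟨2367760, 0, 0, 0, 0, 0, 0, 0, 0, 0, 8467, 0, 16, 256, 272, 2320, 8464⟩

theorem hg : (g.mg && (z.z0 && Nat.beq g.c z.c)) = true := by decide +kernel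

/-- Differences, part 0. -/
def L0 : List Ent := [
  ⟨2105345, 1, 0, 1, 0, 0, 0, 1, 1, 1, 8194, 0, 16, 256, 1, 2049, 8193⟩,
  ⟨10259, 3, 0, 3, 0, 0, 1, 1, 3, 3, 10256, 0, 16, 17, 1, 19, 10259⟩,
  ⟨43056, 1040, 0, 3, 0, 0, 18, 18, 16, 16, 10256, 0, 16, 50, 34, 48, 10288⟩,
  ⟨272642, 2, 0, 2, 0, 0, 1, 0, 2, 2, 10497, 0, 16, 17, 272, 258, 10498⟩,
  ⟨2138146, 1042, 0, 1, 0, 0, 19, 18, 18, 18, 8194, 0, 16, 291, 34, 2082, 8226⟩,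
  ⟨2236552, 4168, 0, 1, 19, 0, 0, 72, 72, 72, 8194, 35, 16, 256, 136, 2184, 8328⟩,
  ⟨8423460, 1044, 0, 7, 0, 1, 18, 18, 20, 20, 2052, 0, 257, 50, 34, 8228, 2084⟩,
  ⟨8915457, 8321, 0, 7, 0, 36, 36, 1, 129, 129, 2052, 0, 324, 84, 1, 8705, 2561⟩,
  ⟨671121488, 1056, 0, 51, 0, 2, 16, 20, 16, 32, 112, 0, 2050, 2080, 10276, 48, 80⟩,
  ⟨4328554576, 1056, 1, 131, 0, 130, 144, 148, 16, 32, 528, 0, 8706, 8736, 548, 48, 80⟩]

theorem h0 : (L0.all fun e => e.mt && evC (g.c ^^^ e.c)) = true := by decide +kernel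

end Pool.Agent.Lib.MP_afdd4d_co.K8.RN.E17
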