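import Pool.Agent.Lib.MP_afdd4d_co.K8.JF

/-!
# The near differences of the coset number 18
-/

namespace Pool.Agent.Lib.MP_afdd4d_co.K8.RN.E18

open Jv

/-- The representative. -/
def g : Ent := ⟨2383888, 0, 0, 0, 57, 57, 29, 29, 12, 3, 24595, 27001, 27001, 26941, 26941, 26908, 26899⟩

/-- The representative as a difference. -/
def z : Ent := ⟨2383888, 0, 0, 0, 0, 0, 0, 0, 0, 0, 24595, 16, 16, 256, 256, 2320, 24592⟩

theorem hg : (g.mg && (z.z0 && Nat.beq g.c z.c)) = true := by decide +kernel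

/-- Differences, part 0. -/
def L0 : List Ent := [
  ⟨288770, 2, 0, 2, 0, 0, 1, 0, 2, 2, 26625, 16, 16, 17, 256, 258, 26626⟩,
  ⟨2383888, 0, 0, 0, 0, 0, 0, 0, 0, 0, 24595, 16, 16, 256, 256, 2320, 24592⟩,
  ⟨134275088, 1024, 0, 19, 0, 0, 16, 16, 16, 0, 24624, 16, 16, 2080, 2080, 48, 24592⟩,
  ⟨142655492, 1028, 0, 23, 0, 1, 16, 16, 20, 4, 16420, 16, 257, 2080, 2080, 8228, 16388⟩,
  ⟨538984513, 33, 0, 33, 0, 2, 0, 5, 1, 33, 16450, 16, 2050, 256, 8197, 2049, 16449⟩,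
  ⟨17314123792, 1536, 0, 531, 8, 8, 16, 16, 16, 512, 4144, 16392, 16392, 2080, 2080, 48, 4112⟩]

theorem h0 : (L0.all fun e => e.mt && evC (g.c ^^^ e.c)) = true := by decide +kernel

end Pool.Agent.Lib.MP_afdd4d_co.K8.RN.E18
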