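import Pool.Agent.Lib.MP_afdd4d_co.K8.JF

/-!
# The near differences of the coset number 20
-/

namespace Pool.Agent.Lib.MP_afdd4d_co.K8.RN.E20

open Jv

/-- The representative. -/
def g : Ent := ⟨136601600, 0, 0, 0, 184, 184, 28, 28, 28, 19, 24611, 17000, 17000, 24620, 24620, 24620, 24611⟩

/-- The representative as a difference. -/
def z : Ent := ⟨136601600, 0, 0, 0, 0, 0, 0, 0, 0, 0, 24611, 16, 16, 2304, 2304, 2304, 24576⟩

theorem hg : (g.mg && (z.z0 && Nat.beq g.c z.c)) = true := by decide +kernel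

/-- Differences, part 0. -/
def L0 : List Ent := [
  ⟨57344, 1024, 0, 19, 0, 0, 16, 16, 16, 0, 24576, 16, 16, 32, 32, 32, 24576⟩,
  ⟨24611, 19, 0, 19, 0, 0, 3, 3, 3, 19, 24576, 16, 16, 3, 3, 3, 24611⟩,
  ⟨8437780, 1028, 0, 23, 0, 1, 16, 16, 20, 4, 16404, 16, 257, 32, 32, 8244, 16404⟩,
  ⟨25198604, 1036, 0, 31, 1, 1, 16, 16, 28, 12, 12, 257, 257, 32, 32, 24620, 12⟩,
  ⟨34168832, 10240, 1, 19, 0, 176, 160, 160, 160, 0, 24576, 16, 624, 576, 576, 576, 24576⟩]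

theorem h0 : (L0.all fun e => e.mt && evC (g.c ^^^ e.c)) = true := by decide +kernel

end Pool.Agent.Lib.MP_afdd4d_co.K8.RN.E20
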