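import Pool.Agent.Lib.MP_afdd4d_co.K8.JF

/-!
# The near differences of the coset number 21
-/

namespace Pool.Agent.Lib.MP_afdd4d_co.K8.RN.E21

open Jv

/-- The representative. -/
def g : Ent := ⟨142622992, 0, 0, 0, 195, 139, 43, 41, 25, 20, 16692, 25235, 25115, 24667, 26713, 26681, 26660⟩

/-- The representative as a difference. -/
def z : Ent := ⟨142622992, 0, 0, 0, 0, 0, 0, 0, 0, 0, 16692, 16, 256, 2048, 2064, 8208, 16656⟩

theorem hg : (g.mg && (z.z0 && Nat.beq g.c z.c)) = true := by decide +kernel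

/-- Differences, part 0. -/
def L0 : List Ent := [
  ⟨26660, 20, 0, 20, 0, 1, 2, 2, 4, 20, 26624, 16, 17, 18, 2, 4, 26660⟩,
  ⟨8407088, 16, 0, 16, 0, 0, 2, 2, 0, 16, 18452, 16, 256, 18, 2, 8208, 18480⟩,
  ⟨10502178, 18, 0, 18, 0, 0, 3, 2, 2, 18, 16390, 16, 256, 259, 2, 10242, 16418⟩,
  ⟨10534913, 1025, 0, 18, 0, 0, 16, 17, 17, 1, 16390, 16, 256, 288, 33, 10273, 16385⟩,
  ⟨25167912, 24, 0, 24, 1, 0, 2, 2, 8, 24, 2060, 257, 256, 18, 2, 24584, 2088⟩,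
  ⟨142884865, 1, 0, 1, 0, 0, 0, 1, 1, 1, 16421, 16, 256, 2048, 2305, 8449, 16385⟩,
  ⟨159383816, 8, 0, 8, 1, 0, 0, 0, 8, 8, 300, 257, 256, 2048, 2064, 24584, 264⟩,
  ⟨4295540737, 9217, 0, 148, 0, 32, 48, 17, 145, 1, 16896, 16, 8256, 8288, 33, 545, 16385⟩,
  ⟨8657051780, 68, 2, 276, 130, 1, 256, 264, 4, 68, 9216, 8706, 17, 17408, 1032, 4, 8324⟩]

theorem h0 : (L0.all fun e => e.mt && evC (g.c ^^^ e.c)) = true := by decide +kernel

end Pool.Agent.Lib.MP_afdd4d_co.K8.RN.E21
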