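import Pool.Agent.Lib.MP_afdd4d_co.K8.JF

/-!
# The near differences of the coset number 22
-/

namespace Pool.Agent.Lib.MP_afdd4d_co.K8.RN.E22

open Jv

/-- The representative. -/
def g : Ent := ⟨142625024, 0, 0, 0, 198, 142, 42, 42, 27, 20, 18724, 17302, 17182, 24922, 24922, 24635, 24628⟩

/-- The representative as a difference. -/
def z : Ent := ⟨142625024, 0, 0, 0, 0, 0, 0, 0, 0, 0, 18724, 16, 256, 2064, 2064, 8192, 18688⟩

theorem hg : (g.mg && (z.z0 && Nat.beq g.c z.c)) = true := by decide +kernel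

/-- Differences, part 0. -/
def L0 : List Ent := [
  ⟨8405024, 16, 0, 16, 0, 0, 2, 2, 0, 16, 16388, 16, 256, 2, 2, 8192, 16416⟩,
  ⟨24628, 20, 0, 20, 0, 1, 2, 2, 4, 20, 24592, 16, 17, 2, 2, 20, 24628⟩,
  ⟨8437763, 1027, 0, 16, 0, 0, 17, 17, 19, 3, 16388, 16, 256, 33, 33, 8227, 16387⟩,
  ⟨16785452, 28, 0, 28, 1, 1, 2, 2, 12, 28, 8200, 257, 17, 2, 2, 16396, 8236⟩,
  ⟨20983840, 33296, 0, 28, 72, 72, 2, 2, 512, 528, 8200, 392, 152, 2, 2, 20480, 12320⟩,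
  ⟨25165880, 24, 0, 24, 1, 0, 2, 2, 8, 24, 28, 257, 256, 2, 2, 24600, 56⟩,
  ⟨75515008, 320, 2, 16, 134, 0, 264, 264, 0, 320, 16388, 534, 256, 1032, 1032, 8192, 17536⟩]

theorem h0 : (L0.all fun e => e.mt && evC (g.c ^^^ e.c)) = true := by decide +kernel

end Pool.Agent.Lib.MP_afdd4d_co.K8.RN.E22
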