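import Pool.Agent.Lib.MP_afdd4d_co.K8.JF

/-!
# The near differences of the coset number 23
-/

namespace Pool.Agent.Lib.MP_afdd4d_co.K8.RN.E23

open Jv

/-- The representative. -/
def g : Ent := ⟨142886912, 0, 0, 0, 212, 156, 56, 42, 26, 21, 18469, 17060, 16940, 24680, 24650, 24618, 24613⟩

/-- The representative as a difference. -/
def z : Ent := ⟨142886912, 0, 0, 0, 0, 0, 0, 0, 0, 0, 18469, 16, 256, 2064, 2304, 8448, 18432⟩

theorem hg : (g.mg && (z.z0 && Nat.beq g.c z.c)) = true := by decide +kernel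

/-- Differences, part 0. -/
def L0 : List Ent := [
  ⟨24613, 21, 0, 21, 0, 1, 2, 3, 5, 21, 24576, 16, 17, 2, 3, 5, 24613⟩,
  ⟨57350, 1030, 0, 21, 0, 1, 17, 16, 22, 6, 24576, 16, 17, 33, 32, 38, 24582⟩,
  ⟨90208, 2096, 0, 21, 0, 18, 2, 38, 32, 48, 24576, 16, 50, 2, 70, 64, 24672⟩,
  ⟨582144, 9344, 0, 21, 0, 36, 52, 16, 144, 128, 24576, 16, 84, 100, 32, 544, 25088⟩]

theorem h0 : (L0.all fun e => e.mt && evC (g.c ^^^ e.c)) = true := by decide +kernel

end Pool.Agent.Lib.MP_afdd4d_co.K8.RN.E23
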