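import Pool.Agent.Lib.MP_afdd4d_co.K8.JF

/-!
# The near differences of the coset number 25
-/

namespace Pool.Agent.Lib.MP_afdd4d_co.K8.RN.E25

open Jv

/-- The representative. -/
def g : Ent := ⟨136579344, 0, 0, 0, 183, 183, 19, 19, 19, 19, 2355, 11127, 11127, 2355, 2355, 2355, 2355⟩

/-- The representative as a difference. -/
def z : Ent := ⟨136579344, 0, 0, 0, 0, 0, 0, 0, 0, 0, 2355, 0, 0, 2320, 2320, 2320, 2320⟩

theorem hg : (g.mg && (z.z0 && Nat.beq g.c z.c)) = true := by decide +kernel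

/-- Differences, part 0. -/
def L0 : List Ent := [
  ⟨35088, 1024, 0, 19, 0, 0, 16, 16, 16, 0, 2320, 0, 0, 48, 48, 48, 2320⟩,
  ⟨2355, 19, 0, 19, 0, 0, 3, 3, 3, 19, 2320, 0, 0, 19, 19, 19, 2355⟩,
  ⟨362564, 3108, 0, 18, 0, 19, 16, 52, 52, 36, 2049, 0, 35, 48, 356, 356, 2116⟩,
  ⟨34146576, 10240, 1, 19, 0, 176, 160, 160, 160, 0, 2320, 0, 608, 592, 592, 592, 2320⟩,
  ⟨34342980, 8228, 1, 18, 0, 163, 160, 132, 132, 36, 2049, 0, 579, 592, 772, 772, 2116⟩]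

theorem h0 : (L0.all fun e => e.mt && evC (g.c ^^^ e.c)) = true := by decide +kernel

end Pool.Agent.Lib.MP_afdd4d_co.K8.RN.E25
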