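import Pool.Agent.Lib.MP_afdd4d_co.K8.JF

/-!
# The near differences of the coset number 26
-/

namespace Pool.Agent.Lib.MP_afdd4d_co.K8.RN.E26

open Jv

/-- The representative. -/
def g : Ent := ⟨136585488, 0, 0, 0, 187, 179, 23, 21, 21, 19, 8499, 19323, 2931, 10551, 8501, 8501, 8499⟩

/-- The representative as a difference. -/
def z : Ent := ⟨136585488, 0, 0, 0, 0, 0, 0, 0, 0, 0, 8499, 0, 16, 2304, 2320, 2320, 8464⟩

theorem hg : (g.mg && (z.z0 && Nat.beq g.c z.c)) = true := by decide +kernel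

/-- Differences, part 0. -/
def L0 : List Ent := [
  ⟨41232, 1024, 0, 19, 0, 0, 16, 16, 16, 0, 8464, 0, 16, 32, 48, 48, 8464⟩,
  ⟨270370, 18, 0, 18, 0, 0, 3, 2, 2, 18, 8193, 0, 16, 3, 258, 258, 8226⟩,
  ⟨8499, 19, 0, 19, 0, 0, 3, 3, 3, 19, 8464, 0, 16, 3, 19, 19, 8499⟩,
  ⟨368708, 3108, 0, 18, 0, 19, 16, 52, 52, 36, 8193, 0, 51, 32, 356, 356, 8260⟩,
  ⟨434312, 5192, 0, 18, 19, 0, 16, 88, 88, 72, 8193, 35, 16, 32, 424, 424, 8328⟩,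
  ⟨795172, 8340, 0, 18, 0, 37, 38, 2, 132, 148, 8193, 0, 85, 70, 258, 772, 8740⟩,
  ⟨1319976, 16664, 0, 18, 37, 0, 74, 2, 264, 280, 8193, 69, 16, 138, 258, 1288, 9256⟩,
  ⟨2107681, 17, 0, 17, 0, 0, 2, 3, 1, 17, 10498, 0, 16, 274, 19, 2049, 10529⟩,
  ⟨8388903, 23, 0, 23, 0, 1, 3, 3, 7, 23, 260, 0, 257, 3, 19, 8199, 295⟩]

theorem h0 : (L0.all fun e => e.mt && evC (g.c ^^^ e.c)) = true := by decide +kernel

/-- Differences, part 1. -/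
def L1 : List Ent := [
  ⟨8454498, 2098, 0, 23, 0, 18, 3, 38, 34, 50, 260, 0, 290, 3, 86, 8258, 354⟩,
  ⟨8913697, 8337, 0, 23, 0, 36, 38, 3, 129, 145, 260, 0, 324, 70, 19, 8705, 801⟩,
  ⟨34152720, 10240, 1, 19, 0, 176, 160, 160, 160, 0, 8464, 0, 624, 576, 592, 592, 8464⟩,
  ⟨34349124, 8228, 1, 18, 0, 163, 160, 132, 132, 36, 8193, 0, 595, 576, 772, 772, 8260⟩,
  ⟨34414593, 10241, 1, 18, 0, 176, 160, 161, 161, 1, 8193, 0, 624, 576, 833, 833, 8193⟩,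
  ⟨42009346, 2178, 1, 23, 0, 148, 133, 160, 34, 130, 260, 0, 804, 517, 592, 8258, 770⟩,
  ⟨42467649, 8225, 1, 23, 0, 162, 160, 133, 129, 33, 260, 0, 834, 576, 533, 8705, 321⟩,
  ⟨42533124, 10244, 1, 23, 0, 177, 160, 160, 164, 4, 260, 0, 865, 576, 592, 8772, 260⟩,
  ⟨68296976, 20480, 2, 19, 176, 0, 320, 320, 320, 0, 8464, 608, 16, 1152, 1168, 1168, 8464⟩]

theorem h1 : (L1.all fun e => e.mt && evC (g.c ^^^ e.c)) = true := by decide +kernel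

/-- Differences, part 2. -/
def L2 : List Ent := [
  ⟨68427912, 16456, 2, 18, 163, 0, 320, 264, 264, 72, 8193, 579, 16, 1152, 1288, 1288, 8328⟩,
  ⟨68558849, 20481, 2, 18, 176, 0, 320, 321, 321, 1, 8193, 608, 16, 1152, 1409, 1409, 8193⟩,
  ⟨76677380, 20484, 2, 23, 176, 1, 320, 320, 324, 4, 260, 608, 257, 1152, 1168, 9348, 260⟩,
  ⟨136355874, 1042, 0, 1, 0, 0, 19, 18, 18, 18, 8226, 0, 16, 2339, 2082, 2082, 8226⟩,
  ⟨136388676, 2084, 0, 1, 0, 19, 0, 36, 36, 36, 8226, 0, 51, 2304, 2116, 2116, 8260⟩,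
  ⟨136454280, 4168, 0, 1, 19, 0, 0, 72, 72, 72, 8226, 35, 16, 2304, 2184, 2184, 8328⟩,
  ⟨142673986, 2082, 0, 7, 0, 18, 1, 36, 34, 34, 2084, 0, 290, 2065, 2116, 8258, 2114⟩,
  ⟨1090560136, 1096, 0, 91, 3, 0, 16, 24, 24, 72, 8328, 2307, 16, 32, 16424, 16424, 8328⟩]

theorem h2 : (L2.all fun e => e.mt && evC (g.c ^^^ e.c)) = true := by decide +kernel

end Pool.Agent.Lib.MP_afdd4d_co.K8.RN.E26
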