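import Pool.Agent.Lib.MP_afdd4d_co.K8.JF

/-!
# The near differences of the coset number 27
-/

namespace Pool.Agent.Lib.MP_afdd4d_co.K8.RN.E27

open Jv

/-- The representative. -/
def g : Ent := ⟨136601616, 0, 0, 0, 185, 185, 29, 29, 28, 19, 24627, 17273, 17273, 24893, 24893, 24636, 24627⟩

/-- The representative as a difference. -/
def z : Ent := ⟨136601616, 0, 0, 0, 0, 0, 0, 0, 0, 0, 24627, 16, 16, 2304, 2304, 2320, 24592⟩

theorem hg : (g.mg && (z.z0 && Nat.beq g.c z.c)) = true := by decide +kernel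

/-- Differences, part 0. -/
def L0 : List Ent := [
  ⟨57360, 1024, 0, 19, 0, 0, 16, 16, 16, 0, 24592, 16, 16, 32, 32, 48, 24592⟩,
  ⟨8437764, 1028, 0, 23, 0, 1, 16, 16, 20, 4, 16388, 16, 257, 32, 32, 8228, 16388⟩,
  ⟨17179906064, 1536, 0, 531, 8, 8, 16, 16, 16, 512, 4112, 16392, 16392, 32, 32, 48, 4112⟩,
  ⟨24627, 19, 0, 19, 0, 0, 3, 3, 3, 19, 24592, 16, 16, 3, 3, 19, 24627⟩,
  ⟨287010, 18, 0, 18, 0, 0, 3, 2, 2, 18, 24833, 16, 16, 3, 274, 258, 24866⟩,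
  ⟨319745, 1025, 0, 18, 0, 0, 16, 17, 17, 1, 24833, 16, 16, 32, 305, 289, 24833⟩,
  ⟨8405031, 23, 0, 23, 0, 1, 3, 3, 7, 23, 16388, 16, 257, 3, 3, 8199, 16423⟩,
  ⟨8470626, 2098, 0, 23, 0, 18, 3, 38, 34, 50, 16388, 16, 290, 3, 70, 8258, 16482⟩,
  ⟨8503361, 3105, 0, 23, 0, 18, 16, 53, 49, 33, 16388, 16, 290, 32, 101, 8289, 16449⟩,
  ⟨12636168, 34312, 0, 23, 73, 72, 16, 16, 536, 520, 16388, 153, 392, 32, 32, 12328, 20488⟩]

theorem h0 : (L0.all fun e => e.mt && evC (g.c ^^^ e.c)) = true := by decide +kernel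

/-- Differences, part 1. -/
def L1 : List Ent := [
  ⟨25198620, 1036, 0, 31, 1, 1, 16, 16, 28, 12, 28, 257, 257, 32, 32, 24636, 28⟩,
  ⟨29397008, 34304, 0, 31, 72, 72, 16, 16, 528, 512, 28, 392, 392, 32, 32, 28720, 4112⟩,
  ⟨34168848, 10240, 1, 19, 0, 176, 160, 160, 160, 0, 24592, 16, 624, 576, 576, 592, 24592⟩,
  ⟨42025474, 2178, 1, 23, 0, 148, 133, 160, 34, 130, 16388, 16, 804, 517, 576, 8258, 16898⟩,
  ⟨42549252, 10244, 1, 23, 0, 177, 160, 160, 164, 4, 16388, 16, 865, 576, 576, 8772, 16388⟩,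
  ⟨50929672, 10248, 1, 27, 1, 176, 160, 160, 168, 8, 8200, 257, 624, 576, 576, 16968, 8200⟩,
  ⟨536920400, 1056, 0, 51, 0, 2, 16, 20, 16, 32, 16720, 16, 2050, 32, 8244, 48, 16720⟩,
  ⟨537149538, 50, 0, 50, 0, 2, 3, 6, 2, 50, 16449, 16, 2050, 3, 8454, 258, 16482⟩,
  ⟨537182273, 1057, 0, 50, 0, 2, 16, 21, 17, 33, 16449, 16, 2050, 32, 8485, 289, 16449⟩]

theorem h1 : (L1.all fun e => e.mt && evC (g.c ^^^ e.c)) = true := by decide +kernel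

/-- Differences, part 2. -/
def L2 : List Ent := [
  ⟨553681224, 1064, 0, 59, 1, 2, 16, 20, 24, 40, 328, 257, 2050, 32, 8244, 16424, 328⟩,
  ⟨570704386, 130, 1, 50, 0, 132, 133, 128, 2, 130, 16449, 16, 2564, 517, 8960, 258, 16898⟩,
  ⟨1610645712, 1120, 0, 115, 2, 2, 16, 28, 16, 96, 208, 2050, 2050, 32, 24620, 48, 208⟩,
  ⟨1879085072, 1536, 4, 115, 264, 264, 16, 528, 16, 512, 208, 3080, 3080, 32, 28704, 48, 4112⟩,
  ⟨17179873331, 531, 0, 531, 8, 8, 3, 3, 3, 531, 4112, 16392, 16392, 3, 3, 19, 4147⟩,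
  ⟨17180135714, 530, 0, 530, 8, 8, 3, 2, 2, 530, 4353, 16392, 16392, 3, 274, 258, 4386⟩,
  ⟨17180168449, 1537, 0, 530, 8, 8, 16, 17, 17, 513, 4353, 16392, 16392, 32, 305, 289, 4353⟩,
  ⟨17188302852, 1540, 0, 535, 8, 9, 16, 16, 20, 516, 12292, 16392, 16665, 32, 32, 8228, 12292⟩,
  ⟨17214017552, 10752, 1, 531, 8, 184, 160, 160, 160, 512, 4112, 16392, 17000, 576, 576, 592, 4112⟩]

theorem h2 : (L2.all fun e => e.mt && evC (g.c ^^^ e.c)) = true := by decide +kernel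

end Pool.Agent.Lib.MP_afdd4d_co.K8.RN.E27
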