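import Pool.Agent.Lib.MP_afdd4d_co.K8.JF

/-!
# The near differences of the coset number 28
-/

namespace Pool.Agent.Lib.MP_afdd4d_co.K8.RN.E28

open Jv

/-- The representative. -/
def g : Ent := ⟨142885136, 0, 0, 0, 211, 155, 59, 41, 25, 21, 16693, 27571, 27451, 27003, 26969, 26937, 26933⟩

/-- The representative as a difference. -/
def z : Ent := ⟨142885136, 0, 0, 0, 0, 0, 0, 0, 0, 0, 16693, 16, 256, 2048, 2320, 8464, 16656⟩

theorem hg : (g.mg && (z.z0 && Nat.beq g.c z.c)) = true := by decide +kernel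

/-- Differences, part 0. -/
def L0 : List Ent := [
  ⟨142622721, 1, 0, 1, 0, 0, 0, 1, 1, 1, 16420, 16, 256, 2048, 2049, 8193, 16385⟩,
  ⟨288804, 20, 0, 20, 0, 1, 2, 2, 4, 20, 26625, 16, 17, 18, 258, 260, 26660⟩,
  ⟨2154756, 1028, 0, 23, 0, 1, 16, 16, 20, 4, 24834, 16, 17, 288, 48, 2084, 24836⟩,
  ⟨8407329, 17, 0, 17, 0, 0, 2, 3, 1, 17, 18692, 16, 256, 18, 19, 8193, 18721⟩,
  ⟨8440066, 1026, 0, 17, 0, 0, 17, 16, 18, 2, 18692, 16, 256, 49, 48, 8226, 18690⟩,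
  ⟨8669232, 16, 0, 16, 0, 0, 2, 2, 0, 16, 18453, 16, 256, 18, 258, 8464, 18480⟩,
  ⟨142655522, 1042, 0, 1, 0, 0, 19, 18, 18, 18, 16420, 16, 256, 2083, 2082, 8226, 16418⟩,
  ⟨142885136, 0, 0, 0, 0, 0, 0, 0, 0, 0, 16693, 16, 256, 2048, 2320, 8464, 16656⟩,
  ⟨151003149, 13, 0, 13, 1, 1, 0, 1, 13, 13, 8232, 257, 17, 2048, 2049, 16397, 8205⟩,
  ⟨151068744, 2088, 0, 13, 1, 18, 0, 36, 40, 40, 8232, 257, 50, 2048, 2116, 16456, 8264⟩]

theorem h0 : (L0.all fun e => e.mt && evC (g.c ^^^ e.c)) = true := by decide +kernel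

/-- Differences, part 1. -/
def L1 : List Ent := [
  ⟨155201537, 33281, 0, 13, 72, 72, 0, 1, 513, 513, 8232, 392, 152, 2048, 2049, 20481, 12289⟩,
  ⟨553715752, 2072, 0, 61, 1, 16, 2, 34, 40, 24, 2120, 257, 2080, 18, 8258, 16456, 2088⟩,
  ⟨4295246372, 148, 0, 148, 0, 5, 6, 2, 4, 148, 16897, 16, 8197, 8198, 258, 260, 16932⟩,
  ⟨4295541008, 9216, 0, 149, 0, 32, 48, 16, 144, 0, 17168, 16, 8256, 8288, 48, 560, 16656⟩,
  ⟨4295770146, 8210, 0, 148, 0, 32, 35, 2, 130, 18, 16897, 16, 8256, 8259, 258, 770, 16418⟩,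
  ⟨4295802881, 9217, 0, 148, 0, 32, 48, 17, 145, 1, 16897, 16, 8256, 8288, 289, 801, 16385⟩,
  ⟨4312301832, 9224, 0, 157, 1, 32, 48, 16, 152, 8, 776, 257, 8256, 8288, 48, 16936, 264⟩,
  ⟨4345364744, 2056, 1, 157, 1, 144, 128, 160, 40, 8, 776, 257, 8736, 8704, 592, 16456, 264⟩,
  ⟨4431822849, 8193, 0, 135, 0, 32, 32, 1, 129, 1, 16930, 16, 8256, 10560, 2049, 2561, 16385⟩]

theorem h1 : (L1.all fun e => e.mt && evC (g.c ^^^ e.c)) = true := by decide +kernel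

end Pool.Agent.Lib.MP_afdd4d_co.K8.RN.E28
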