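import Pool.Agent.Lib.MP_afdd4d_co.K8.JF

/-!
# The near differences of the coset number 30
-/

namespace Pool.Agent.Lib.MP_afdd4d_co.K8.RN.E30

open Jv

/-- The representative. -/
def g : Ent := ⟨136587536, 0, 0, 0, 191, 183, 23, 23, 23, 19, 10547, 27503, 11111, 10535, 10535, 10535, 10547⟩

/-- The representative as a difference. -/
def z : Ent := ⟨136587536, 0, 0, 0, 0, 0, 0, 0, 0, 0, 10547, 0, 16, 2320, 2320, 2320, 10512⟩

theorem hg : (g.mg && (z.z0 && Nat.beq g.c z.c)) = true := by decide +kernel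

/-- Differences, part 0. -/
def L0 : List Ent := [
  ⟨43280, 1024, 0, 19, 0, 0, 16, 16, 16, 0, 10512, 0, 16, 48, 48, 48, 10512⟩,
  ⟨272418, 18, 0, 18, 0, 0, 3, 2, 2, 18, 10241, 0, 16, 19, 258, 258, 10274⟩,
  ⟨305153, 1025, 0, 18, 0, 0, 16, 17, 17, 1, 10241, 0, 16, 48, 289, 289, 10241⟩,
  ⟨8423684, 1028, 0, 23, 0, 1, 16, 16, 20, 4, 2308, 0, 257, 48, 48, 8228, 2308⟩,
  ⟨10747940, 20, 0, 20, 0, 1, 2, 2, 4, 20, 7, 0, 257, 258, 258, 10500, 36⟩,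
  ⟨142639140, 1044, 0, 7, 0, 1, 18, 18, 20, 20, 36, 0, 257, 2082, 2082, 8228, 36⟩,
  ⟨142671938, 2082, 0, 7, 0, 18, 1, 36, 34, 34, 36, 0, 290, 2049, 2116, 8258, 66⟩]

theorem h0 : (L0.all fun e => e.mt && evC (g.c ^^^ e.c)) = true := by decide +kernel

end Pool.Agent.Lib.MP_afdd4d_co.K8.RN.E30
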