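import Pool.Agent.Lib.MP_afdd4d_co.K8.JF

/-!
# The near differences of the coset number 31
-/

namespace Pool.Agent.Lib.MP_afdd4d_co.K8.RN.E31

open Jv

/-- The representative. -/
def g : Ent := ⟨136601872, 0, 0, 0, 187, 187, 31, 29, 29, 19, 24883, 19307, 19307, 26927, 24877, 24877, 24883⟩

/-- The representative as a difference. -/
def z : Ent := ⟨136601872, 0, 0, 0, 0, 0, 0, 0, 0, 0, 24883, 16, 16, 2304, 2320, 2320, 24848⟩

theorem hg : (g.mg && (z.z0 && Nat.beq g.c z.c)) = true := by decide +kernel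

/-- Differences, part 0. -/
def L0 : List Ent := [
  ⟨57616, 1024, 0, 19, 0, 0, 16, 16, 16, 0, 24848, 16, 16, 32, 48, 48, 24848⟩,
  ⟨286754, 18, 0, 18, 0, 0, 3, 2, 2, 18, 24577, 16, 16, 3, 258, 258, 24610⟩,
  ⟨319489, 1025, 0, 18, 0, 0, 16, 17, 17, 1, 24577, 16, 16, 32, 289, 289, 24577⟩,
  ⟨8438020, 1028, 0, 23, 0, 1, 16, 16, 20, 4, 16644, 16, 257, 32, 48, 8228, 16644⟩,
  ⟨553680968, 1064, 0, 59, 1, 2, 16, 20, 24, 40, 72, 257, 2050, 32, 8228, 16424, 72⟩,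
  ⟨17179906320, 1536, 0, 531, 8, 8, 16, 16, 16, 512, 4368, 16392, 16392, 32, 48, 48, 4368⟩,
  ⟨17180135458, 530, 0, 530, 8, 8, 3, 2, 2, 530, 4097, 16392, 16392, 3, 258, 258, 4130⟩,
  ⟨17180168193, 1537, 0, 530, 8, 8, 16, 17, 17, 513, 4097, 16392, 16392, 32, 289, 289, 4097⟩]

theorem h0 : (L0.all fun e => e.mt && evC (g.c ^^^ e.c)) = true := by decide +kernel

end Pool.Agent.Lib.MP_afdd4d_co.K8.RN.E31
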