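import Pool.Agent.Lib.MP_afdd4d_co.K8.JF

/-!
# The near differences of the coset number 32
-/

namespace Pool.Agent.Lib.MP_afdd4d_co.K8.RN.E32

open Jv

/-- The representative. -/
def g : Ent := ⟨142887184, 0, 0, 0, 215, 159, 59, 43, 27, 21, 18741, 19367, 19247, 26987, 24907, 24875, 24885⟩

/-- The representative as a difference. -/
def z : Ent := ⟨142887184, 0, 0, 0, 0, 0, 0, 0, 0, 0, 18741, 16, 256, 2064, 2320, 8464, 18704⟩

theorem hg : (g.mg && (z.z0 && Nat.beq g.c z.c)) = true := by decide +kernel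

/-- Differences, part 0. -/
def L0 : List Ent := [
  ⟨286756, 20, 0, 20, 0, 1, 2, 2, 4, 20, 24577, 16, 17, 2, 258, 260, 24612⟩,
  ⟨8405281, 17, 0, 17, 0, 0, 2, 3, 1, 17, 16644, 16, 256, 2, 19, 8193, 16673⟩,
  ⟨8438018, 1026, 0, 17, 0, 0, 17, 16, 18, 2, 16644, 16, 256, 33, 48, 8226, 16642⟩,
  ⟨25428008, 24, 0, 24, 1, 0, 2, 2, 8, 24, 13, 257, 256, 2, 258, 24840, 40⟩,
  ⟨553713704, 2072, 0, 61, 1, 16, 2, 34, 40, 24, 72, 257, 2080, 2, 8258, 16456, 40⟩,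
  ⟨1082261544, 4120, 0, 81, 17, 0, 2, 66, 72, 24, 132, 2081, 256, 2, 16514, 8328, 40⟩,
  ⟨1149240321, 257, 2, 81, 132, 0, 264, 257, 1, 257, 132, 2564, 256, 1032, 17409, 8193, 1025⟩,
  ⟨8732541953, 257, 0, 257, 4, 0, 8, 1, 1, 257, 1060, 8196, 256, 18440, 2049, 8193, 1025⟩]

theorem h0 : (L0.all fun e => e.mt && evC (g.c ^^^ e.c)) = true := by decide +kernel

end Pool.Agent.Lib.MP_afdd4d_co.K8.RN.E32
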