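import Pool.Agent.Lib.MP_afdd4d_co.K8.JF

/-!
# The near differences of the coset number 33
-/

namespace Pool.Agent.Lib.MP_afdd4d_co.K8.RN.E33

open Jv

/-- The representative. -/
def g : Ent := ⟨144984320, 0, 0, 0, 246, 190, 58, 58, 27, 23, 18727, 27638, 27518, 27002, 27002, 26939, 26935⟩

/-- The representative as a difference. -/
def z : Ent := ⟨144984320, 0, 0, 0, 0, 0, 0, 0, 0, 0, 18727, 16, 256, 2320, 2320, 10496, 18688⟩

theorem hg : (g.mg && (z.z0 && Nat.beq g.c z.c)) = true := by decide +kernel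

/-- Differences, part 0. -/
def L0 : List Ent := [
  ⟨8440064, 1024, 0, 19, 0, 0, 16, 16, 16, 0, 18692, 16, 256, 48, 48, 8224, 18688⟩,
  ⟨142622723, 3, 0, 3, 0, 0, 1, 1, 3, 3, 16420, 16, 256, 2049, 2049, 8195, 16387⟩,
  ⟨142655520, 1040, 0, 3, 0, 0, 18, 18, 16, 16, 16420, 16, 256, 2082, 2082, 8224, 16416⟩,
  ⟨539050016, 2064, 0, 53, 0, 16, 2, 34, 32, 16, 16450, 16, 2080, 258, 8258, 2112, 16416⟩]

theorem h0 : (L0.all fun e => e.mt && evC (g.c ^^^ e.c)) = true := by decide +kernel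

end Pool.Agent.Lib.MP_afdd4d_co.K8.RN.E33
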