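import Pool.Agent.Lib.MP_afdd4d_co.K8.JF

/-!
# The near differences of the coset number 34
-/

namespace Pool.Agent.Lib.MP_afdd4d_co.K8.RN.E34

open Jv

/-- The representative. -/
def g : Ent := ⟨681592848, 0, 0, 0, 485, 173, 169, 59, 58, 54, 18550, 10197, 25437, 17241, 18811, 18554, 18550⟩

/-- The representative as a difference. -/
def z : Ent := ⟨681592848, 0, 0, 0, 0, 0, 0, 0, 0, 0, 18550, 16, 2304, 2320, 10240, 10256, 18448⟩

theorem hg : (g.mg && (z.z0 && Nat.beq g.c z.c)) = true := by decide +kernel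

/-- Differences, part 0. -/
def L0 : List Ent := [
  ⟨116752, 3072, 0, 54, 0, 16, 16, 48, 48, 0, 18448, 16, 32, 48, 96, 112, 18448⟩,
  ⟨2113636, 52, 0, 52, 0, 3, 2, 6, 4, 52, 16386, 16, 3, 258, 6, 2052, 16484⟩,
  ⟨2179105, 2065, 0, 52, 0, 16, 2, 35, 33, 17, 16386, 16, 32, 258, 67, 2113, 16417⟩,
  ⟨2211842, 3074, 0, 52, 0, 16, 17, 48, 50, 2, 16386, 16, 32, 289, 96, 2146, 16386⟩,
  ⟨16877576, 3080, 0, 62, 1, 16, 16, 48, 56, 8, 2056, 257, 32, 48, 96, 16488, 2056⟩,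
  ⟨50857992, 8200, 1, 62, 1, 160, 160, 128, 136, 8, 2056, 257, 576, 592, 512, 16904, 2056⟩]

theorem h0 : (L0.all fun e => e.mt && evC (g.c ^^^ e.c)) = true := by decide +kernel

end Pool.Agent.Lib.MP_afdd4d_co.K8.RN.E34
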