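import Pool.Agent.Lib.MP_afdd4d_co.K8.JF

/-!
# The near differences of the coset number 35
-/

namespace Pool.Agent.Lib.MP_afdd4d_co.K8.RN.E35

open Jv

/-- The representative. -/
def g : Ent := ⟨4976820224, 0, 0, 0, 1008, 184, 184, 184, 184, 183, 16999, 32752, 27512, 27512, 27512, 27512, 27511⟩

/-- The representative as a difference. -/
def z : Ent := ⟨4976820224, 0, 0, 0, 0, 0, 0, 0, 0, 0, 16999, 16, 10496, 10496, 10496, 10496, 16384⟩

theorem hg : (g.mg && (z.z0 && Nat.beq g.c z.c)) = true := by decide +kernel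

/-- Differences, part 0. -/
def L0 : List Ent := [
  ⟨44318720, 0, 1, 176, 0, 128, 128, 128, 0, 0, 16391, 16, 768, 768, 768, 10496, 16384⟩,
  ⟨143212544, 10240, 0, 163, 0, 48, 32, 32, 160, 0, 16420, 16, 352, 2112, 2112, 8768, 16384⟩]

theorem h0 : (L0.all fun e => e.mt && evC (g.c ^^^ e.c)) = true := by decide +kernel

end Pool.Agent.Lib.MP_afdd4d_co.K8.RN.E35
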