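import Pool.Agent.Lib.MP_afdd4d_co.K8.JF

/-!
# The near differences of the coset number 36
-/

namespace Pool.Agent.Lib.MP_afdd4d_co.K8.RN.E36

open Jv

/-- The representative. -/
def g : Ent := ⟨136603920, 0, 0, 0, 191, 191, 31, 31, 31, 19, 26931, 27519, 27519, 26943, 26943, 26943, 26931⟩

/-- The representative as a difference. -/
def z : Ent := ⟨136603920, 0, 0, 0, 0, 0, 0, 0, 0, 0, 26931, 16, 16, 2320, 2320, 2320, 26896⟩

theorem hg : (g.mg && (z.z0 && Nat.beq g.c z.c)) = true := by decide +kernel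

/-- Differences, part 0. -/
def L0 : List Ent := [
  ⟨59664, 1024, 0, 19, 0, 0, 16, 16, 16, 0, 26896, 16, 16, 48, 48, 48, 26896⟩,
  ⟨288802, 18, 0, 18, 0, 0, 3, 2, 2, 18, 26625, 16, 16, 19, 258, 258, 26658⟩,
  ⟨321537, 1025, 0, 18, 0, 0, 16, 17, 17, 1, 26625, 16, 16, 48, 289, 289, 26625⟩,
  ⟨8440068, 1028, 0, 23, 0, 1, 16, 16, 20, 4, 18692, 16, 257, 48, 48, 8228, 18692⟩,
  ⟨10764324, 20, 0, 20, 0, 1, 2, 2, 4, 20, 16391, 16, 257, 258, 258, 10500, 16420⟩,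
  ⟨142655524, 1044, 0, 7, 0, 1, 18, 18, 20, 20, 16420, 16, 257, 2082, 2082, 8228, 16420⟩,
  ⟨142688322, 2082, 0, 7, 0, 18, 1, 36, 34, 34, 16420, 16, 290, 2049, 2116, 8258, 16450⟩,
  ⟨553683016, 1064, 0, 59, 1, 2, 16, 20, 24, 40, 2120, 257, 2050, 48, 8228, 16424, 2120⟩,
  ⟨17179908368, 1536, 0, 531, 8, 8, 16, 16, 16, 512, 6416, 16392, 16392, 48, 48, 48, 6416⟩,
  ⟨17180137506, 530, 0, 530, 8, 8, 3, 2, 2, 530, 6145, 16392, 16392, 19, 258, 258, 6178⟩,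
  ⟨17180170241, 1537, 0, 530, 8, 8, 16, 17, 17, 513, 6145, 16392, 16392, 48, 289, 289, 6145⟩]

theorem h0 : (L0.all fun e => e.mt && evC (g.c ^^^ e.c)) = true := by decide +kernel

end Pool.Agent.Lib.MP_afdd4d_co.K8.RN.E36
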