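import Pool.Agent.Lib.MP_afdd4d_co.K8.JF

/-!
# The near differences of the coset number 37
-/

namespace Pool.Agent.Lib.MP_afdd4d_co.K8.RN.E37

open Jv

/-- The representative. -/
def g : Ent := ⟨144984336, 0, 0, 0, 247, 191, 59, 59, 27, 23, 18743, 27367, 27247, 26731, 26731, 26923, 26919⟩

/-- The representative as a difference. -/
def z : Ent := ⟨144984336, 0, 0, 0, 0, 0, 0, 0, 0, 0, 18743, 16, 256, 2320, 2320, 10512, 18704⟩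

theorem hg : (g.mg && (z.z0 && Nat.beq g.c z.c)) = true := by decide +kernel

/-- Differences, part 0. -/
def L0 : List Ent := [
  ⟨59652, 1028, 0, 23, 0, 1, 16, 16, 20, 4, 26880, 16, 17, 48, 48, 36, 26884⟩,
  ⟨2383908, 20, 0, 20, 0, 1, 2, 2, 4, 20, 24579, 16, 17, 258, 258, 2308, 24612⟩,
  ⟨8440080, 1024, 0, 19, 0, 0, 16, 16, 16, 0, 18708, 16, 256, 48, 48, 8240, 18704⟩,
  ⟨8669218, 18, 0, 18, 0, 0, 3, 2, 2, 18, 18437, 16, 256, 19, 258, 8450, 18466⟩,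
  ⟨134242311, 7, 0, 7, 0, 1, 1, 1, 7, 7, 24608, 16, 17, 2049, 2049, 7, 24583⟩,
  ⟨134275108, 1044, 0, 7, 0, 1, 18, 18, 20, 20, 24608, 16, 17, 2082, 2082, 36, 24612⟩,
  ⟨134307906, 2082, 0, 7, 0, 18, 1, 36, 34, 34, 24608, 16, 50, 2049, 2116, 66, 24642⟩,
  ⟨142622739, 3, 0, 3, 0, 0, 1, 1, 3, 3, 16436, 16, 256, 2049, 2049, 8211, 16403⟩,
  ⟨142655536, 1040, 0, 3, 0, 0, 18, 18, 16, 16, 16436, 16, 256, 2082, 2082, 8240, 16432⟩]

theorem h0 : (L0.all fun e => e.mt && evC (g.c ^^^ e.c)) = true := by decide +kernel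

/-- Differences, part 1. -/
def L1 : List Ent := [
  ⟨142885122, 2, 0, 2, 0, 0, 1, 0, 2, 2, 16677, 16, 256, 2049, 2320, 8450, 16642⟩,
  ⟨536922180, 1060, 0, 55, 0, 3, 16, 20, 20, 36, 18496, 16, 2051, 48, 8228, 36, 18500⟩,
  ⟨536954914, 2066, 0, 55, 0, 16, 3, 34, 34, 18, 18496, 16, 2080, 19, 8258, 66, 18466⟩,
  ⟨536987649, 3073, 0, 55, 0, 16, 16, 49, 49, 1, 18496, 16, 2080, 48, 8289, 97, 18433⟩,
  ⟨539050032, 2064, 0, 53, 0, 16, 2, 34, 32, 16, 16466, 16, 2080, 258, 8258, 2128, 16432⟩,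
  ⟨555810856, 2072, 0, 61, 1, 16, 2, 34, 40, 24, 74, 257, 2080, 258, 8258, 18504, 40⟩,
  ⟨570968065, 8193, 1, 55, 0, 160, 160, 129, 129, 1, 18496, 16, 2624, 592, 8705, 513, 18433⟩,
  ⟨671170818, 2050, 0, 39, 0, 16, 1, 32, 34, 2, 16736, 16, 2080, 2049, 10320, 66, 16642⟩,
  ⟨1744896130, 2114, 0, 103, 2, 16, 1, 40, 34, 66, 224, 2050, 2080, 2049, 26696, 66, 130⟩]

theorem h1 : (L1.all fun e => e.mt && evC (g.c ^^^ e.c)) = true := by decide +kernel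

/-- Differences, part 2. -/
def L2 : List Ent := [
  ⟨5368742532, 1220, 0, 215, 2, 5, 20, 24, 20, 196, 640, 2050, 8197, 8228, 16424, 36, 644⟩,
  ⟨5369233569, 8273, 0, 215, 2, 32, 34, 11, 129, 81, 640, 2050, 8256, 8258, 16395, 513, 161⟩,
  ⟨5402329218, 2114, 1, 215, 2, 144, 129, 168, 34, 66, 640, 2050, 8736, 8705, 16968, 66, 130⟩,
  ⟨17179908356, 1540, 0, 535, 8, 9, 16, 16, 20, 516, 6400, 16392, 16393, 48, 48, 36, 6404⟩,
  ⟨17182232612, 532, 0, 532, 8, 9, 2, 2, 4, 532, 4099, 16392, 16393, 258, 258, 2308, 4132⟩,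
  ⟨17314091015, 519, 0, 519, 8, 9, 1, 1, 7, 519, 4128, 16392, 16393, 2049, 2049, 7, 4103⟩,
  ⟨17314123812, 1556, 0, 519, 8, 9, 18, 18, 20, 532, 4128, 16392, 16393, 2082, 2082, 36, 4132⟩,
  ⟨17314156610, 2594, 0, 519, 8, 26, 1, 36, 34, 546, 4128, 16392, 16426, 2049, 2116, 66, 4162⟩,
  ⟨17582588034, 2114, 4, 519, 258, 272, 1, 552, 34, 66, 4128, 17410, 17440, 2049, 6216, 66, 130⟩]

theorem h2 : (L2.all fun e => e.mt && evC (g.c ^^^ e.c)) = true := by decide +kernel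

end Pool.Agent.Lib.MP_afdd4d_co.K8.RN.E37
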