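import Pool.Agent.Lib.MP_afdd4d_co.K8.JF

/-!
# The near differences of the coset number 38
-/

namespace Pool.Agent.Lib.MP_afdd4d_co.K8.RN.E38

open Jv

/-- The representative. -/
def g : Ent := ⟨681584912, 0, 0, 0, 495, 167, 167, 55, 55, 54, 10614, 28623, 11079, 11079, 10599, 10599, 10614⟩

/-- The representative as a difference. -/
def z : Ent := ⟨681584912, 0, 0, 0, 0, 0, 0, 0, 0, 0, 10614, 0, 2320, 2320, 10256, 10256, 10512⟩

theorem hg : (g.mg && (z.z0 && Nat.beq g.c z.c)) = true := by decide +kernel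

/-- Differences, part 0. -/
def L0 : List Ent := [
  ⟨142606402, 34, 0, 34, 0, 2, 1, 4, 2, 34, 36, 0, 258, 2049, 2052, 8194, 66⟩,
  ⟨108816, 3072, 0, 54, 0, 16, 16, 48, 48, 0, 10512, 0, 48, 48, 112, 112, 10512⟩,
  ⟨305220, 1060, 0, 55, 0, 3, 16, 20, 20, 36, 10241, 0, 19, 48, 292, 292, 10308⟩,
  ⟨2105700, 52, 0, 52, 0, 3, 2, 6, 4, 52, 8450, 0, 19, 258, 22, 2052, 8548⟩,
  ⟨2171169, 2065, 0, 52, 0, 16, 2, 35, 33, 17, 8450, 0, 48, 258, 83, 2113, 8481⟩,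
  ⟨10486128, 48, 0, 48, 0, 2, 2, 6, 0, 48, 278, 0, 258, 258, 22, 10256, 368⟩,
  ⟨34351105, 8193, 1, 55, 0, 160, 160, 129, 129, 1, 10241, 0, 592, 592, 769, 769, 10241⟩,
  ⟨143656008, 16680, 0, 34, 37, 2, 72, 4, 264, 296, 36, 69, 258, 2184, 2052, 9224, 1096⟩]

theorem h0 : (L0.all fun e => e.mt && evC (g.c ^^^ e.c)) = true := by decide +kernel

end Pool.Agent.Lib.MP_afdd4d_co.K8.RN.E38
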