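import Pool.Agent.Lib.MP_afdd4d_co.K8.JF

/-!
# The near differences of the coset number 40
-/

namespace Pool.Agent.Lib.MP_afdd4d_co.K8.RN.E40

open Jv

/-- The representative. -/
def g : Ent := ⟨681854992, 0, 0, 0, 501, 189, 185, 59, 58, 55, 18551, 12021, 27261, 19065, 18555, 18810, 18791⟩

/-- The representative as a difference. -/
def z : Ent := ⟨681854992, 0, 0, 0, 0, 0, 0, 0, 0, 0, 18551, 16, 2304, 2320, 10496, 10512, 18448⟩

theorem hg : (g.mg && (z.z0 && Nat.beq g.c z.c)) = true := by decide +kernel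

/-- Differences, part 0. -/
def L0 : List Ent := [
  ⟨134299650, 2050, 0, 39, 0, 16, 1, 32, 34, 2, 16416, 16, 32, 2049, 2112, 66, 16386⟩,
  ⟨51524, 1060, 0, 55, 0, 3, 16, 20, 20, 36, 18688, 16, 3, 48, 52, 36, 18756⟩,
  ⟨84258, 2066, 0, 55, 0, 16, 3, 34, 34, 18, 18688, 16, 32, 19, 82, 66, 18722⟩,
  ⟨116993, 3073, 0, 55, 0, 16, 16, 49, 49, 1, 18688, 16, 32, 48, 113, 97, 18689⟩,
  ⟨2179376, 2064, 0, 53, 0, 16, 2, 34, 32, 16, 16658, 16, 32, 258, 82, 2128, 16688⟩,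
  ⟨2375780, 52, 0, 52, 0, 3, 2, 6, 4, 52, 16387, 16, 3, 258, 262, 2308, 16484⟩,
  ⟨34097409, 8193, 1, 55, 0, 160, 160, 129, 129, 1, 18688, 16, 576, 592, 529, 513, 18689⟩,
  ⟨35930628, 132, 1, 52, 0, 133, 132, 128, 4, 132, 16387, 16, 517, 772, 768, 2308, 16900⟩,
  ⟨36454402, 8194, 1, 52, 0, 160, 161, 128, 130, 2, 16387, 16, 576, 833, 768, 2818, 16386⟩,
  ⟨51120136, 8200, 1, 62, 1, 160, 160, 128, 136, 8, 2057, 257, 576, 592, 768, 17160, 2056⟩,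
  ⟨134234183, 39, 0, 39, 0, 3, 1, 5, 7, 39, 16416, 16, 3, 2049, 2053, 7, 16455⟩,
  ⟨134266980, 1076, 0, 39, 0, 3, 18, 22, 20, 52, 16416, 16, 3, 2082, 2086, 36, 16484⟩]

theorem h0 : (L0.all fun e => e.mt && evC (g.c ^^^ e.c)) = true := by decide +kernel

/-- Differences, part 1. -/
def L1 : List Ent := [
  ⟨134758977, 8353, 0, 39, 0, 38, 36, 5, 129, 161, 16416, 16, 70, 2116, 2053, 513, 16961⟩,
  ⟨134824452, 10372, 0, 39, 0, 53, 36, 32, 164, 132, 16416, 16, 101, 2116, 2112, 580, 16900⟩,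
  ⟨167821828, 1156, 1, 39, 0, 133, 148, 144, 20, 132, 16416, 16, 517, 2596, 2592, 36, 16900⟩,
  ⟨168345602, 9218, 1, 39, 0, 160, 177, 144, 146, 2, 16416, 16, 576, 2657, 2592, 546, 16386⟩,
  ⟨406994946, 36866, 4, 39, 336, 320, 1, 576, 578, 2, 16416, 1200, 1152, 2049, 6272, 4226, 16386⟩,
  ⟨536930308, 1028, 0, 23, 0, 1, 16, 16, 20, 4, 26688, 16, 2065, 48, 8224, 36, 26628⟩,
  ⟨562071560, 1032, 0, 27, 1, 0, 16, 16, 24, 8, 2124, 257, 2304, 48, 8224, 24616, 2056⟩,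
  ⟨1107953672, 12296, 1, 119, 17, 160, 160, 192, 200, 8, 2176, 2081, 576, 592, 17024, 648, 2056⟩,
  ⟨1141966856, 18440, 2, 119, 161, 16, 320, 288, 296, 8, 2176, 2625, 32, 1168, 17472, 1096, 2056⟩,
  ⟨1342216196, 1540, 4, 119, 264, 265, 16, 528, 20, 516, 2176, 3080, 1033, 48, 20512, 36, 6148⟩,
  ⟨1346406408, 33800, 4, 119, 321, 320, 16, 528, 536, 8, 2176, 3201, 1152, 48, 20512, 4136, 2056⟩,
  ⟨8624014593, 8449, 1, 311, 4, 160, 168, 129, 129, 257, 1280, 8196, 576, 16968, 529, 513, 1281⟩]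

theorem h1 : (L1.all fun e => e.mt && evC (g.c ^^^ e.c)) = true := by decide +kernel

end Pool.Agent.Lib.MP_afdd4d_co.K8.RN.E40
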