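import Pool.Agent.Lib.MP_afdd4d_co.K8.JF

/-!
# The near differences of the coset number 41
-/

namespace Pool.Agent.Lib.MP_afdd4d_co.K8.RN.E41

open Jv

/-- The representative. -/
def g : Ent := ⟨681863168, 0, 0, 0, 508, 188, 188, 62, 62, 55, 26727, 28668, 27516, 27516, 27006, 27006, 26999⟩

/-- The representative as a difference. -/
def z : Ent := ⟨681863168, 0, 0, 0, 0, 0, 0, 0, 0, 0, 26727, 16, 2320, 2320, 10496, 10496, 26624⟩

theorem hg : (g.mg && (z.z0 && Nat.beq g.c z.c)) = true := by decide +kernel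

/-- Differences, part 0. -/
def L0 : List Ent := [
  ⟨387072, 3072, 0, 54, 0, 16, 16, 48, 48, 0, 26625, 16, 48, 48, 352, 352, 26624⟩,
  ⟨2187552, 2064, 0, 53, 0, 16, 2, 34, 32, 16, 24834, 16, 48, 258, 82, 2112, 24864⟩,
  ⟨10764384, 48, 0, 48, 0, 2, 2, 6, 0, 48, 16391, 16, 258, 258, 262, 10496, 16480⟩,
  ⟨34367488, 8192, 1, 54, 0, 160, 160, 128, 128, 0, 26625, 16, 592, 592, 768, 768, 26624⟩,
  ⟨44319232, 128, 1, 48, 0, 132, 132, 128, 0, 128, 16391, 16, 772, 772, 768, 10496, 16896⟩,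
  ⟨136407040, 2048, 0, 37, 0, 16, 0, 32, 32, 0, 26658, 16, 48, 2320, 2112, 2112, 26624⟩,
  ⟨142622787, 35, 0, 35, 0, 2, 1, 5, 3, 35, 16420, 16, 258, 2049, 2053, 8195, 16451⟩,
  ⟨142655584, 1072, 0, 35, 0, 2, 18, 22, 16, 48, 16420, 16, 258, 2082, 2086, 8224, 16480⟩,
  ⟨143213056, 10368, 0, 35, 0, 52, 36, 32, 160, 128, 16420, 16, 356, 2116, 2112, 8768, 16896⟩,
  ⟨151068682, 2058, 0, 47, 1, 16, 1, 32, 42, 10, 8232, 257, 48, 2049, 2112, 16458, 8202⟩]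

theorem h0 : (L0.all fun e => e.mt && evC (g.c ^^^ e.c)) = true := by decide +kernel

/-- Differences, part 1. -/
def L1 : List Ent := [
  ⟨152118272, 18688, 0, 47, 36, 16, 72, 32, 288, 256, 8232, 324, 48, 2184, 2112, 17472, 9216⟩,
  ⟨4295344640, 3200, 0, 182, 0, 20, 20, 48, 48, 128, 16897, 16, 8228, 8228, 352, 352, 16896⟩,
  ⟨4295770208, 8240, 0, 182, 0, 34, 34, 6, 128, 48, 16897, 16, 8258, 8258, 262, 768, 16480⟩,
  ⟨4329325056, 8320, 1, 182, 0, 164, 164, 128, 128, 128, 16897, 16, 8772, 8772, 768, 768, 16896⟩,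
  ⟨4431364608, 2176, 0, 165, 0, 20, 4, 32, 32, 128, 16930, 16, 8228, 10500, 2112, 2112, 16896⟩,
  ⟨8590304256, 3328, 0, 310, 4, 16, 24, 48, 48, 256, 9217, 8196, 48, 16424, 352, 352, 9216⟩,
  ⟨8598357312, 1312, 0, 307, 4, 2, 24, 20, 16, 288, 1284, 8196, 258, 16424, 52, 8224, 1344⟩,
  ⟨8624284672, 8448, 1, 310, 4, 160, 168, 128, 128, 256, 9217, 8196, 592, 16968, 768, 768, 9216⟩,
  ⟨8726324224, 2304, 0, 293, 4, 16, 8, 32, 32, 256, 9250, 8196, 48, 18696, 2112, 2112, 9216⟩,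
  ⟨9135236096, 1280, 0, 275, 4, 0, 24, 16, 16, 256, 9284, 8196, 2320, 16424, 8224, 8224, 9216⟩]

theorem h1 : (L1.all fun e => e.mt && evC (g.c ^^^ e.c)) = true := by decide +kernel

end Pool.Agent.Lib.MP_afdd4d_co.K8.RN.E41
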