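import Pool.Agent.Lib.MP_afdd4d_co.K8.JF

/-!
# The near differences of the coset number 42
-/

namespace Pool.Agent.Lib.MP_afdd4d_co.K8.RN.E42

open Jv

/-- The representative. -/
def g : Ent := ⟨4976820240, 0, 0, 0, 1009, 185, 185, 185, 184, 183, 17015, 32481, 27241, 27241, 27241, 27496, 27495⟩

/-- The representative as a difference. -/
def z : Ent := ⟨4976820240, 0, 0, 0, 0, 0, 0, 0, 0, 0, 17015, 16, 10496, 10496, 10496, 10512, 16400⟩

theorem hg : (g.mg && (z.z0 && Nat.beq g.c z.c)) = true := by decide +kernel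

/-- Differences, part 0. -/
def L0 : List Ent := [
  ⟨35938308, 4, 1, 180, 0, 129, 128, 128, 4, 4, 24579, 16, 529, 768, 768, 2308, 24580⟩,
  ⟨44318736, 0, 1, 176, 0, 128, 128, 128, 0, 0, 16407, 16, 768, 768, 768, 10512, 16400⟩,
  ⟨134308354, 2178, 0, 167, 0, 20, 5, 32, 34, 130, 24608, 16, 52, 2053, 2112, 66, 25090⟩,
  ⟨134832132, 10244, 0, 167, 0, 49, 32, 32, 164, 4, 24608, 16, 113, 2112, 2112, 580, 24580⟩,
  ⟨143212560, 10240, 0, 163, 0, 48, 32, 32, 160, 0, 16436, 16, 352, 2112, 2112, 8784, 16400⟩,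
  ⟨159973384, 10248, 0, 171, 1, 48, 32, 32, 168, 8, 44, 257, 352, 2112, 2112, 25160, 8⟩,
  ⟨167829508, 1028, 1, 167, 0, 129, 144, 144, 20, 4, 24608, 16, 529, 2592, 2592, 36, 24580⟩]

theorem h0 : (L0.all fun e => e.mt && evC (g.c ^^^ e.c)) = true := by decide +kernel

/-- Differences, part 1. -/
def L1 : List Ent := [
  ⟨176209936, 1024, 1, 163, 0, 128, 144, 144, 16, 0, 16436, 16, 768, 2592, 2592, 8240, 16400⟩,
  ⟨671629569, 8193, 0, 135, 0, 32, 32, 1, 129, 1, 16736, 16, 2112, 2112, 10257, 513, 16641⟩,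
  ⟨1117782145, 65, 1, 241, 2, 128, 128, 137, 1, 65, 134, 2050, 768, 768, 16905, 10241, 129⟩,
  ⟨1745354881, 8257, 0, 199, 2, 32, 32, 9, 129, 65, 224, 2050, 2112, 2112, 26633, 513, 129⟩,
  ⟨5368742084, 1124, 0, 119, 2, 3, 16, 28, 20, 100, 640, 2050, 8195, 8224, 16428, 36, 196⟩,
  ⟨5402787969, 8257, 1, 119, 2, 160, 160, 137, 129, 65, 640, 2050, 8768, 8768, 16905, 513, 129⟩]

theorem h1 : (L1.all fun e => e.mt && evC (g.c ^^^ e.c)) = true := by decide +kernel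

end Pool.Agent.Lib.MP_afdd4d_co.K8.RN.E42
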