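import Pool.Agent.Lib.MP_afdd4d_co.K8.JF

/-!
# The near differences of the coset number 44
-/

namespace Pool.Agent.Lib.MP_afdd4d_co.K8.RN.E44

open Jv

/-- The representative. -/
def g : Ent := ⟨681863184, 0, 0, 0, 509, 189, 189, 63, 62, 55, 26743, 28397, 27245, 27245, 26735, 26990, 26983⟩

/-- The representative as a difference. -/
def z : Ent := ⟨681863184, 0, 0, 0, 0, 0, 0, 0, 0, 0, 26743, 16, 2320, 2320, 10496, 10512, 26640⟩

theorem hg : (g.mg && (z.z0 && Nat.beq g.c z.c)) = true := by decide +kernel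

/-- Differences, part 0. -/
def L0 : List Ent := [
  ⟨134307842, 2050, 0, 39, 0, 16, 1, 32, 34, 2, 24608, 16, 48, 2049, 2112, 66, 24578⟩,
  ⟨9126839300, 1284, 0, 279, 4, 1, 24, 16, 20, 260, 1088, 8196, 2049, 16424, 8224, 36, 1028⟩]

theorem h0 : (L0.all fun e => e.mt && evC (g.c ^^^ e.c)) = true := by decide +kernel

end Pool.Agent.Lib.MP_afdd4d_co.K8.RN.E44
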