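import Pool.Agent.Lib.MP_afdd4d_co.K8.JF

/-!
# The near differences of the coset number 46
-/

namespace Pool.Agent.Lib.MP_afdd4d_co.K8.RN.E46

open Jv

/-- The representative. -/
def g : Ent := ⟨4976820496, 0, 0, 0, 1011, 187, 187, 185, 185, 183, 17271, 30451, 25211, 25211, 27257, 27257, 27239⟩

/-- The representative as a difference. -/
def z : Ent := ⟨4976820496, 0, 0, 0, 0, 0, 0, 0, 0, 0, 17271, 16, 10496, 10496, 10512, 10512, 16656⟩

theorem hg : (g.mg && (z.z0 && Nat.beq g.c z.c)) = true := by decide +kernel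

/-- Differences, part 0. -/
def L0 : List Ent := [
  ⟨44056577, 1, 1, 177, 0, 128, 128, 129, 1, 1, 16390, 16, 768, 768, 513, 10241, 16385⟩,
  ⟨4295081985, 3073, 0, 55, 0, 16, 16, 49, 49, 1, 16896, 16, 8224, 8224, 97, 97, 16385⟩]

theorem h0 : (L0.all fun e => e.mt && evC (g.c ^^^ e.c)) = true := by decide +kernel

end Pool.Agent.Lib.MP_afdd4d_co.K8.RN.E46
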