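import Pool.Agent.Lib.MP_afdd4d_co.K8.JF

/-!
# The near differences of the coset number 47
-/

namespace Pool.Agent.Lib.MP_afdd4d_co.K8.RN.E47

open Jv

/-- The representative. -/
def g : Ent := ⟨5528381440, 0, 0, 0, 732, 476, 380, 238, 222, 221, 27309, 31676, 28604, 28156, 27614, 27582, 27581⟩

/-- The representative as a difference. -/
def z : Ent := ⟨5528381440, 0, 0, 0, 0, 0, 0, 0, 0, 0, 27309, 2320, 8464, 10256, 18688, 24832, 26624⟩

theorem hg : (g.mg && (z.z0 && Nat.beq g.c z.c)) = true := by decide +kernel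

/-- Differences, part 0. -/
def L0 : List Ent := [
  ⟨142754304, 4224, 0, 201, 16, 4, 4, 64, 64, 128, 16420, 48, 260, 2052, 2176, 8320, 16896⟩]

theorem h0 : (L0.all fun e => e.mt && evC (g.c ^^^ e.c)) = true := by decide +kernel

end Pool.Agent.Lib.MP_afdd4d_co.K8.RN.E47
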