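import Pool.Agent.Lib.MP_afdd4d_co.K8.JF

/-!
# The near differences of the coset number 48
-/

namespace Pool.Agent.Lib.MP_afdd4d_co.K8.RN.E48

open Jv

/-- The representative. -/
def g : Ent := ⟨1772120080, 0, 0, 0, 493, 493, 493, 127, 126, 126, 26878, 28365, 28365, 28365, 26863, 27118, 27118⟩

/-- The representative as a difference. -/
def z : Ent := ⟨1772120080, 0, 0, 0, 0, 0, 0, 0, 0, 0, 26878, 2320, 2320, 2320, 26624, 26640, 26640⟩

theorem hg : (g.mg && (z.z0 && Nat.beq g.c z.c)) = true := by decide +kernel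

/-- Differences, part 0. -/
def L0 : List Ent := [
  ⟨134438914, 6146, 0, 110, 16, 16, 1, 96, 98, 2, 24608, 48, 48, 2049, 2240, 194, 24578⟩,
  ⟨406872066, 32770, 4, 110, 320, 320, 1, 512, 514, 2, 24608, 1168, 1168, 2049, 6144, 4098, 24578⟩,
  ⟨1744830478, 14, 0, 14, 1, 1, 1, 0, 14, 14, 224, 2049, 2049, 2049, 26624, 14, 14⟩,
  ⟨1745355272, 8328, 0, 14, 1, 36, 36, 0, 136, 136, 224, 2049, 2116, 2116, 26624, 520, 520⟩,
  ⟨5402788360, 8328, 1, 190, 1, 164, 164, 128, 136, 136, 640, 2049, 8772, 8772, 16896, 520, 520⟩,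
  ⟨5403313156, 16644, 1, 190, 36, 129, 200, 128, 260, 260, 640, 2116, 8705, 8840, 16896, 1028, 1028⟩]

theorem h0 : (L0.all fun e => e.mt && evC (g.c ^^^ e.c)) = true := by decide +kernel

end Pool.Agent.Lib.MP_afdd4d_co.K8.RN.E48
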