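import Pool.Agent.Lib.MP_afdd4d_co.K8.JF

/-!
# The near differences of the coset number 50
-/

namespace Pool.Agent.Lib.MP_afdd4d_co.K8.RN.E50

open Jv

/-- The representative. -/
def g : Ent := ⟨5528381456, 0, 0, 0, 733, 477, 381, 239, 222, 221, 27325, 31405, 28333, 27885, 27343, 27566, 27565⟩

/-- The representative as a difference. -/
def z : Ent := ⟨5528381456, 0, 0, 0, 0, 0, 0, 0, 0, 0, 27325, 2320, 8464, 10256, 18688, 24848, 26640⟩

theorem hg : (g.mg && (z.z0 && Nat.beq g.c z.c)) = true := by decide +kernel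

/-- Differences, part 0. -/
def L0 : List Ent := [
  ⟨134373892, 4228, 0, 205, 16, 5, 4, 64, 68, 132, 24608, 48, 21, 2052, 2176, 132, 25092⟩,
  ⟨134897666, 12290, 0, 205, 16, 32, 33, 64, 194, 2, 24608, 48, 80, 2113, 2176, 642, 24578⟩,
  ⟨142754320, 4224, 0, 201, 16, 4, 4, 64, 64, 128, 16436, 48, 260, 2052, 2176, 8336, 16912⟩]

theorem h0 : (L0.all fun e => e.mt && evC (g.c ^^^ e.c)) = true := by decide +kernel

end Pool.Agent.Lib.MP_afdd4d_co.K8.RN.E50
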