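import Pool.Agent.Lib.MP_afdd4d_co.K8.JF

/-!
# The near differences of the coset number 51
-/

namespace Pool.Agent.Lib.MP_afdd4d_co.K8.RN.E51

open Jv

/-- The representative. -/
def g : Ent := ⟨5396261136, 0, 0, 0, 639, 383, 383, 255, 207, 207, 27551, 31231, 28159, 28159, 27647, 27551, 27551⟩

/-- The representative as a difference. -/
def z : Ent := ⟨5396261136, 0, 0, 0, 0, 0, 0, 0, 0, 0, 27551, 2320, 8464, 8464, 16656, 26896, 26896⟩

theorem hg : (g.mg && (z.z0 && Nat.beq g.c z.c)) = true := by decide +kernel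

end Pool.Agent.Lib.MP_afdd4d_co.K8.RN.E51
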