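import Pool.Agent.Lib.MP_afdd4d_co.K8.JF

/-!
# The near differences of the coset number 52
-/

namespace Pool.Agent.Lib.MP_afdd4d_co.K8.RN.E52

open Jv

/-- The representative. -/
def g : Ent := ⟨1772382480, 0, 0, 0, 511, 511, 511, 127, 127, 127, 27135, 28671, 28671, 28671, 27135, 27135, 27135⟩

/-- The representative as a difference. -/
def z : Ent := ⟨1772382480, 0, 0, 0, 0, 0, 0, 0, 0, 0, 27135, 2320, 2320, 2320, 26896, 26896, 26896⟩

theorem hg : (g.mg && (z.z0 && Nat.beq g.c z.c)) = true := by decide +kernel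

/-- Differences, part 0. -/
def L0 : List Ent := [
  ⟨142753858, 4130, 0, 107, 16, 2, 1, 68, 66, 34, 16420, 48, 258, 2049, 2180, 8322, 16450⟩]

theorem h0 : (L0.all fun e => e.mt && evC (g.c ^^^ e.c)) = true := by decide +kernel

end Pool.Agent.Lib.MP_afdd4d_co.K8.RN.E52
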