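import Pool.Agent.Lib.MP_afdd4d_co.K8.JF

/-!
# The near differences of the coset number 53
-/

namespace Pool.Agent.Lib.MP_afdd4d_co.K8.RN.E53

open Jv

/-- The representative. -/
def g : Ent := ⟨31837153552, 0, 0, 0, 1023, 1023, 1023, 1023, 1023, 1023, 32767, 32767, 32767, 32767, 32767, 32767, 32767⟩

/-- The representative as a difference. -/
def z : Ent := ⟨31837153552, 0, 0, 0, 0, 0, 0, 0, 0, 0, 32767, 26896, 26896, 26896, 26896, 26896, 26896⟩

theorem hg : (g.mg && (z.z0 && Nat.beq g.c z.c)) = true := by decide +kernel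

end Pool.Agent.Lib.MP_afdd4d_co.K8.RN.E53
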