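import Pool.Agent.Lib.MP_afdd4d_co.K8.JF

/-!
# The near differences of the coset number 0
-/

namespace Pool.Agent.Lib.MP_afdd4d_co.K8.RN.E00

open Jv

/-- The representative. -/
def g : Ent := ⟨0, 0, 0, 0, 0, 0, 0, 0, 0, 0, 0, 0, 0, 0, 0, 0, 0⟩

/-- The representative as a difference. -/
def z : Ent := ⟨0, 0, 0, 0, 0, 0, 0, 0, 0, 0, 0, 0, 0, 0, 0, 0, 0⟩

theorem hg : (g.mg && (z.z0 && Nat.beq g.c z.c)) = true := by decide +kernel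

/-- Differences, part 0. -/
def L0 : List Ent := [
  ⟨0, 0, 0, 0, 0, 0, 0, 0, 0, 0, 0, 0, 0, 0, 0, 0, 0⟩,
  ⟨32803, 1043, 0, 0, 0, 0, 19, 19, 19, 19, 0, 0, 0, 35, 35, 35, 35⟩,
  ⟨98406, 3126, 0, 0, 0, 19, 19, 54, 54, 54, 0, 0, 35, 35, 102, 102, 102⟩]

theorem h0 : (L0.all fun e => e.mt && evC (g.c ^^^ e.c)) = true := by decide +kernel

end Pool.Agent.Lib.MP_afdd4d_co.K8.RN.E00
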