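import Pool.Agent.Lib.MP_afdd4d_co.K8.JF

/-!
# The near differences of the coset number 19
-/

namespace Pool.Agent.Lib.MP_afdd4d_co.K8.RN.E19

open Jv

/-- The representative. -/
def g : Ent := ⟨2384128, 0, 0, 0, 58, 58, 30, 28, 13, 3, 24835, 24698, 24698, 24638, 26684, 26653, 26627⟩

/-- The representative as a difference. -/
def z : Ent := ⟨2384128, 0, 0, 0, 0, 0, 0, 0, 0, 0, 24835, 16, 16, 256, 272, 2304, 24832⟩

theorem hg : (g.mg && (z.z0 && Nat.beq g.c z.c)) = true := by decide +kernel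

/-- Differences, part 0. -/
def L0 : List Ent := [
  ⟨26627, 3, 0, 3, 0, 0, 1, 1, 3, 3, 26624, 16, 16, 17, 1, 3, 26627⟩,
  ⟨59424, 1040, 0, 3, 0, 0, 18, 18, 16, 16, 26624, 16, 16, 50, 34, 32, 26656⟩,
  ⟨2121745, 1, 0, 1, 0, 0, 0, 1, 1, 1, 24594, 16, 16, 256, 1, 2065, 24593⟩,
  ⟨10502149, 5, 0, 5, 0, 1, 0, 1, 5, 5, 16390, 16, 257, 256, 1, 10245, 16389⟩,
  ⟨10567744, 2080, 0, 5, 0, 18, 0, 36, 32, 32, 16390, 16, 290, 256, 68, 10304, 16448⟩,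
  ⟨539246656, 32, 0, 32, 0, 2, 0, 4, 0, 32, 16451, 16, 2050, 256, 8452, 2304, 16448⟩,
  ⟨671137856, 1056, 0, 51, 0, 2, 16, 20, 16, 32, 16480, 16, 2050, 2080, 10276, 32, 16448⟩,
  ⟨4295573568, 10272, 0, 131, 0, 50, 32, 36, 160, 32, 16896, 16, 8290, 8256, 68, 576, 16448⟩,
  ⟨4328570944, 1056, 1, 131, 0, 130, 144, 148, 16, 32, 16896, 16, 8706, 8736, 548, 32, 16448⟩,
  ⟨17179875331, 515, 0, 515, 8, 8, 1, 1, 3, 515, 6144, 16392, 16392, 17, 1, 3, 6147⟩,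
  ⟨17179908128, 1552, 0, 515, 8, 8, 18, 18, 16, 528, 6144, 16392, 16392, 50, 34, 32, 6176⟩,
  ⟨17181970449, 513, 0, 513, 8, 8, 0, 1, 1, 513, 4114, 16392, 16392, 256, 1, 2065, 4113⟩]

theorem h0 : (L0.all fun e => e.mt && evC (g.c ^^^ e.c)) = true := by decide +kernel

end Pool.Agent.Lib.MP_afdd4d_co.K8.RN.E19
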