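import Pool.Agent.Lib.MP_afdd4d_co.K8.JF

/-!
# The near differences of the coset number 39
-/

namespace Pool.Agent.Lib.MP_afdd4d_co.K8.RN.E39

open Jv

/-- The representative. -/
def g : Ent := ⟨681593104, 0, 0, 0, 487, 175, 171, 59, 59, 54, 18806, 12231, 27471, 19275, 18795, 18795, 18806⟩

/-- The representative as a difference. -/
def z : Ent := ⟨681593104, 0, 0, 0, 0, 0, 0, 0, 0, 0, 18806, 16, 2304, 2320, 10256, 10256, 18704⟩

theorem hg : (g.mg && (z.z0 && Nat.beq g.c z.c)) = true := by decide +kernel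

/-- Differences, part 0. -/
def L0 : List Ent := [
  ⟨117008, 3072, 0, 54, 0, 16, 16, 48, 48, 0, 18704, 16, 32, 48, 112, 112, 18704⟩,
  ⟨313412, 1060, 0, 55, 0, 3, 16, 20, 20, 36, 18433, 16, 3, 48, 292, 292, 18500⟩,
  ⟨346146, 2066, 0, 55, 0, 16, 3, 34, 34, 18, 18433, 16, 32, 19, 322, 322, 18466⟩,
  ⟨2113892, 52, 0, 52, 0, 3, 2, 6, 4, 52, 16642, 16, 3, 258, 22, 2052, 16740⟩,
  ⟨2179361, 2065, 0, 52, 0, 16, 2, 35, 33, 17, 16642, 16, 32, 258, 83, 2113, 16673⟩,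
  ⟨34097424, 8192, 1, 54, 0, 160, 160, 128, 128, 0, 18704, 16, 576, 592, 528, 528, 18704⟩,
  ⟨34359297, 8193, 1, 55, 0, 160, 160, 129, 129, 1, 18433, 16, 576, 592, 769, 769, 18433⟩,
  ⟨35668740, 132, 1, 52, 0, 133, 132, 128, 4, 132, 16642, 16, 517, 772, 528, 2052, 17156⟩,
  ⟨36192514, 8194, 1, 52, 0, 160, 161, 128, 130, 2, 16642, 16, 576, 833, 528, 2562, 16642⟩]

theorem h0 : (L0.all fun e => e.mt && evC (g.c ^^^ e.c)) = true := by decide +kernel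

/-- Differences, part 1. -/
def L1 : List Ent := [
  ⟨50858248, 8200, 1, 62, 1, 160, 160, 128, 136, 8, 2312, 257, 576, 592, 528, 16904, 2312⟩,
  ⟨136333380, 36, 0, 36, 0, 3, 0, 4, 4, 36, 18466, 16, 3, 2320, 2052, 2052, 18500⟩,
  ⟨142630978, 34, 0, 34, 0, 2, 1, 4, 2, 34, 24612, 16, 274, 2049, 2052, 8194, 24642⟩,
  ⟨150995022, 46, 0, 46, 1, 3, 1, 4, 14, 46, 40, 257, 3, 2049, 2052, 16398, 78⟩,
  ⟨151519816, 8360, 0, 46, 1, 38, 36, 4, 136, 168, 40, 257, 70, 2116, 2052, 16904, 584⟩,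
  ⟨155193410, 33314, 0, 46, 72, 74, 1, 4, 514, 546, 40, 392, 138, 2049, 2052, 20482, 4162⟩,
  ⟨185073704, 8216, 1, 46, 1, 160, 162, 130, 136, 24, 40, 257, 576, 2626, 2562, 16904, 40⟩,
  ⟨423624834, 32834, 4, 46, 322, 320, 1, 520, 514, 66, 40, 1410, 1152, 2049, 6152, 20482, 130⟩,
  ⟨8624014608, 8448, 1, 310, 4, 160, 168, 128, 128, 256, 1296, 8196, 576, 16968, 528, 528, 1296⟩]

theorem h1 : (L1.all fun e => e.mt && evC (g.c ^^^ e.c)) = true := by decide +kernel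

end Pool.Agent.Lib.MP_afdd4d_co.K8.RN.E39
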