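import Pool.Agent.Lib.MP_afdd4d_co.K8.JF

/-!
# The near differences of the coset number 49
-/

namespace Pool.Agent.Lib.MP_afdd4d_co.K8.RN.E49

open Jv

/-- The representative. -/
def g : Ent := ⟨5528119568, 0, 0, 0, 719, 463, 367, 239, 223, 220, 27580, 31647, 28575, 28127, 27615, 27583, 27580⟩

/-- The representative as a difference. -/
def z : Ent := ⟨5528119568, 0, 0, 0, 0, 0, 0, 0, 0, 0, 27580, 2320, 8464, 10256, 18448, 24592, 26896⟩

theorem hg : (g.mg && (z.z0 && Nat.beq g.c z.c)) = true := by decide +kernel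

/-- Differences, part 0. -/
def L0 : List Ent := [
  ⟨142623368, 200, 0, 200, 3, 4, 4, 8, 8, 200, 16420, 19, 260, 2052, 2056, 8200, 17032⟩,
  ⟨142754305, 4225, 0, 200, 16, 4, 4, 65, 65, 129, 16420, 48, 260, 2052, 2177, 8321, 16897⟩]

theorem h0 : (L0.all fun e => e.mt && evC (g.c ^^^ e.c)) = true := by decide +kernel

end Pool.Agent.Lib.MP_afdd4d_co.K8.RN.E49
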